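import Pool.Agent.H68.AQ.Defs

/-!
# Module BV : the Bell numbers up to 31

`bl` is the explicit list of `B_0, ..., B_31`.  Suggested proof: `S a k = ∑_{i ≤ k} C(k,i) B_{a+i}` satisfies `S a 0 = B_a`,
`S a (k+1) = S a k + S (a+1) k`, `S 0 k = B_{k+1}` (`Nat.bell_succ` after `i ↦ k - i`), so the rows
`row n = [S n 0, S (n-1) 1, ..., S 0 n]` of the Bell triangle satisfy: `row (n+1)` starts with the last entry of `row n` and each
next entry is the previous one plus the entry above it.  Define `row` on lists of naturals by structural recursion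
(a fold), prove the invariant by induction, and evaluate with `decide` or `rfl` in the kernel (about 500 additions).
(Do not unfold `Nat.choose 30 15` : that blows up.)  Any other proof is fine.
-/

namespace Pool.H68.AQ

open Finset Pool.H68.AC

def bl : List ℕ := [1, 1, 2, 5, 15, 52, 203, 877, 4140, 21147, 115975, 678570, 4213597, 27644437, 190899322,
  1382958545, 10480142147, 82864869804, 682076806159, 5832742205057, 51724158235372, 474869816156751,
  4506715738447323, 44152005855084346, 445958869294805289, 4638590332229999353, 49631246523618756274,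
  545717047936059989389, 6160539404599934652455, 71339801938860275191172, 846749014511809332450147,
  10293358946226376485095653]

def bv_sc : ℕ → List ℕ → List ℕ
  | a, [] => [a]
  | a, b :: l => a :: bv_sc (a + b) l

def bv_nx (r : List ℕ) : List ℕ := bv_sc (r.getD (r.length - 1) 0) r

def bv_row : ℕ → List ℕ
  | 0 => [1]
  | n + 1 => bv_nx (bv_row n)

def bv_S (a k : ℕ) : ℕ := ∑ i ∈ range (k + 1), Nat.choose k i * Nat.bell (a + i)

theorem bv_S_zero (a : ℕ) : bv_S a 0 = Nat.bell a := by simp [bv_S]

theorem bv_S_last (k : ℕ) : bv_S 0 k = Nat.bell (k + 1) := by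
  have h0 : Nat.bell (k + 1) = ∑ i ∈ range (k + 1), Nat.choose k i * Nat.bell (k - i) := by
    rw [Nat.bell_succ]
    exact Finset.sum_congr (by ext x; simp) fun _ _ => rfl
  rw [h0, bv_S, ← Finset.sum_range_reflect]
  refine Finset.sum_congr rfl fun i hi => ?_
  have hi' : i ≤ k := by simpa [Nat.lt_succ_iff] using hi
  have h1 : k + 1 - 1 - i = k - i := by omega
  rw [h1, Nat.zero_add, Nat.choose_symm hi']

theorem bv_S_succ (a k : ℕ) : bv_S a (k + 1) = bv_S a k + bv_S (a + 1) k := by
  unfold bv_S
  rw [Finset.sum_range_succ' _ (k + 1)]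
  simp only [Nat.choose_succ_succ', Nat.add_mul, Finset.sum_add_distrib, Nat.choose_zero_right]
  rw [Finset.sum_range_succ (fun i => (k.choose (i + 1)) * Nat.bell (a + (i + 1))) k]
  rw [Finset.sum_range_succ' (fun i => k.choose i * Nat.bell (a + i)) k]
  simp only [Nat.choose_succ_self, Nat.choose_zero_right]
  have : ∑ x ∈ range (k + 1), k.choose x * Nat.bell (a + (x + 1))
      = ∑ x ∈ range (k + 1), k.choose x * Nat.bell (a + 1 + x) :=
    Finset.sum_congr rfl fun x _ => by rw [show a + (x + 1) = a + 1 + x by ring]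
  rw [this]
  ring

theorem bv_sc_length (l : List ℕ) : ∀ a, (bv_sc a l).length = l.length + 1 := by
  induction l with
  | nil => intro a; rfl
  | cons b l ih => intro a; simp [bv_sc, ih]

theorem bv_sc_getD (l : List ℕ) : ∀ a i, i ≤ l.length →
    (bv_sc a l).getD i 0 = a + ∑ j ∈ range i, l.getD j 0 := by
  induction l with
  | nil =>
    intro a i hi
    have : i = 0 := by simpa using hi
    subst this
    simp [bv_sc]
  | cons b l ih =>
    intro a i hi
    cases i with
    | zero => simp [bv_sc]
    | succ i =>
      have h1 := ih (a + b) i (by simpa using hi)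
      rw [Finset.sum_range_succ']
      show (bv_sc (a + b) l).getD i 0 = _
      rw [h1]
      simp
      ring

theorem bv_sum (n : ℕ) : ∀ i, i ≤ n + 1 →
    bv_S (n + 1 - i) i = bv_S (n + 1) 0 + ∑ j ∈ range i, bv_S (n - j) j := by
  intro i
  induction i with
  | zero => intro _; simp
  | succ i ih =>
    intro hi
    rw [Finset.sum_range_succ, ← add_assoc, ← ih (by omega)]
    have h1 : n + 1 - (i + 1) = n - i := by omega
    have h2 : n + 1 - i = n - i + 1 := by omega
    rw [h1, h2, bv_S_succ]
    ring

theorem bv_inv (n : ℕ) : (bv_row n).length = n + 1 ∧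
    ∀ i, i ≤ n → (bv_row n).getD i 0 = bv_S (n - i) i := by
  induction n with
  | zero =>
    refine ⟨rfl, fun i hi => ?_⟩
    have : i = 0 := by omega
    subst this
    simp [bv_row, bv_S_zero]
  | succ n ih =>
    obtain ⟨h1, h2⟩ := ih
    have h3 : (bv_row (n + 1)).length = n + 1 + 1 := by
      show (bv_sc _ _).length = _
      rw [bv_sc_length, h1]
    refine ⟨h3, fun i hi => ?_⟩
    show (bv_sc ((bv_row n).getD ((bv_row n).length - 1) 0) (bv_row n)).getD i 0 = _
    rw [bv_sc_getD _ _ _ (by rw [h1]; exact hi), h1, Nat.add_sub_cancel, h2 n le_rfl, Nat.sub_self,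
      bv_S_last, ← bv_S_zero, bv_sum n i hi]
    congr 1
    refine Finset.sum_congr rfl fun j hj => ?_
    have hj' : j < i := by simpa using hj
    exact h2 j (by omega)

theorem bv_chk : ∀ j < 32, (bv_row j).getD 0 0 = bl.getD j 0 := by
  decide +kernel

theorem bell_bl (j : ℕ) (hj : j ≤ 31) : Nat.bell j = bl.getD j 0 := by
  rw [← bv_chk j (by omega), (bv_inv j).2 0 (Nat.zero_le _), Nat.sub_zero, bv_S_zero]

end Pool.H68.AQ
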