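import Pool.Agent.H68.AC.FI

/-!
# MP_ec1142_co, full Q1 : numbers

`qq j = B_{j+1} / B_j` (so `p_{j+1} = B_j / B_{j+1} = 1 / qq j`, and the average number of blocks of a partition of a
`j`-set is `qq j - 1`), `dq j = qq (j+1) - qq j`, `ro j = j / qq j`, `ww j = 1 / (1 + ro j)`,
`ep j = (1 + ro j) / (1 + 2 ro j)`, `av j d = 1 / (2 + d ep j / qq j)`, constants `cc d`, `vv j d = min (ww j) (cc d)`.
The index `j` always belongs to vertex sets with `j + 1` elements.
-/

namespace Pool.H68.AQ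

open Finset Pool.H68.AC

noncomputable def qq (j : ℕ) : ℝ := (Nat.bell (j + 1) : ℝ) / (Nat.bell j : ℝ)

noncomputable def dq (j : ℕ) : ℝ := qq (j + 1) - qq j

noncomputable def ro (j : ℕ) : ℝ := (j : ℝ) / qq j

noncomputable def ww (j : ℕ) : ℝ := 1 / (1 + ro j)

noncomputable def ep (j : ℕ) : ℝ := (1 + ro j) / (1 + 2 * ro j)

noncomputable def av (j d : ℕ) : ℝ := 1 / (2 + (d : ℝ) * ep j / qq j)

noncomputable def cc (d : ℕ) : ℝ :=
  if d ≤ 2 then 39 / 100 else if d ≤ 5 then 353 / 1000 else if d ≤ 9 then 33 / 100 else if d ≤ 15 then 31 / 100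
  else 29 / 100

noncomputable def vv (j d : ℕ) : ℝ := min (ww j) (cc d)

end Pool.H68.AQ
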