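import Pool.Agent.H68.AQ.BV

/-!
# Module FC : the finite checks (`j ≤ 28`)

Numerical: `qq j = bl[j+1] / bl[j]` by `bell_bl`.  `ww j = 1 / (1 + j / qq j)`, `dq j = qq (j+1) - qq j`.
The inequalities are cleared of denominators and checked over `ℕ` by the kernel.
-/

namespace Pool.H68.AQ

open Finset Pool.H68.AC

/-- `1000 * cc d` -/
def fcc (d : ℕ) : ℕ :=
  if d ≤ 2 then 390 else if d ≤ 5 then 353 else if d ≤ 9 then 330 else if d ≤ 15 then 310 else 290

theorem fc_cc (d : ℕ) : cc d = (fcc d : ℝ) / 1000 := by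
  unfold cc fcc
  split_ifs <;> norm_num

def fck1 (c j d b0 b1 b2 b3 : ℕ) : Bool :=
  decide (1000 * b2 ≤ c * (b2 + j * b1)) ||
  decide (1000 * b3 * b1 + c * (j - d) * b0 * b2 ≤ 1000 * (b2 * b2) + c * (b1 * b2 + (j + 1 - d) * (b1 * b1)))

def fck3 (c j d b1 b2 : ℕ) : Bool :=
  decide (b2 * (2 * (b2 + 2 * j * b1) * b2 + d * (b2 + j * b1) * b1) < (b2 + 2 * j * b1) * b2 * (b2 + j * b1)) ||
  decide (c * (2 * (b2 + 2 * j * b1) * b2 + d * (b2 + j * b1) * b1) < 1000 * ((b2 + 2 * j * b1) * b2))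

theorem fck_all : ∀ j < 29, ∀ d < 29, 1 ≤ d → d ≤ j →
    (fck1 (fcc d) j d (bl.getD (j - 1) 0) (bl.getD j 0) (bl.getD (j + 1) 0) (bl.getD (j + 2) 0) = true ∧
    fck3 (fcc d) j d (bl.getD j 0) (bl.getD (j + 1) 0) = true) := by
  decide +kernel

theorem fc_pos (j : ℕ) : (0 : ℝ) < (Nat.bell j : ℝ) := by
  have : 0 < Nat.bell j := by
    cases j with
    | zero => simp
    | succ n =>
      rw [Nat.bell_succ]
      apply Finset.sum_pos'
      · intro i _; exact Nat.zero_le _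
      · refine ⟨n, by simp, ?_⟩
        simp
  exact_mod_cast this

theorem fc_c1 (j d : ℕ) (hd : 1 ≤ d) (hdj : d ≤ j) (hj : j ≤ 28) (hw : cc d < ww j) :
    dq j ≤ cc d * (1 + ((j : ℝ) + 1 - d) / qq j - ((j : ℝ) - d) / qq (j - 1)) := by
  have hk := (fck_all j (by omega) d (by omega) hd hdj).1
  rw [← bell_bl (j - 1) (by omega), ← bell_bl j (by omega), ← bell_bl (j + 1) (by omega),
    ← bell_bl (j + 2) (by omega)] at hk
  have e1 : j - 1 + 1 = j := by omega
  have h0 := fc_pos (j - 1)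
  have h1 := fc_pos j
  have h2 := fc_pos (j + 1)
  have h3 := fc_pos (j + 2)
  rw [fc_cc] at hw ⊢
  unfold dq
  unfold ww ro at hw
  unfold qq at hw ⊢
  rw [e1]
  have e2 : j + 1 + 1 = j + 2 := rfl
  rw [e2]
  generalize (Nat.bell (j - 1)) = b0 at *
  generalize (Nat.bell j) = b1 at *
  generalize (Nat.bell (j + 1)) = b2 at *
  generalize (Nat.bell (j + 2)) = b3 at *
  generalize fcc d = c at *
  unfold fck1 at hk
  rw [Bool.or_eq_true, decide_eq_true_eq, decide_eq_true_eq] at hk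
  rcases hk with hk | hk
  · exfalso
    have hk' : (1000 : ℝ) * b2 ≤ c * (b2 + j * b1) := by exact_mod_cast hk
    have hpos : (0 : ℝ) < b2 + j * b1 := by positivity
    have e : (1 : ℝ) / (1 + (j : ℝ) / ((b2 : ℝ) / (b1 : ℝ))) = b2 / (b2 + j * b1) := by
      field_simp
    rw [e, div_lt_div_iff₀ (by norm_num) hpos] at hw
    linarith
  · have hk' : (1000 : ℝ) * b3 * b1 + c * ((j : ℝ) - d) * b0 * b2 ≤
        1000 * (b2 * b2) + c * (b1 * b2 + ((j : ℝ) + 1 - d) * (b1 * b1)) := by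
      have := hk
      have h4 : ((1000 * b3 * b1 + c * (j - d) * b0 * b2 : ℕ) : ℝ) ≤
        ((1000 * (b2 * b2) + c * (b1 * b2 + (j + 1 - d) * (b1 * b1)) : ℕ) : ℝ) := by exact_mod_cast this
      push_cast [Nat.cast_sub hdj, Nat.cast_sub (show d ≤ j + 1 by omega)] at h4
      linarith
    have e : (c : ℝ) / 1000 * (1 + ((j : ℝ) + 1 - d) / ((b2 : ℝ) / b1) - ((j : ℝ) - d) / ((b1 : ℝ) / b0)) -
        ((b3 : ℝ) / b2 - (b2 : ℝ) / b1) =
        ((1000 * (b2 * b2) + c * (b1 * b2 + ((j : ℝ) + 1 - d) * (b1 * b1))) -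
          (1000 * b3 * b1 + c * ((j : ℝ) - d) * b0 * b2)) / (1000 * b2 * b1) := by
      field_simp
      ring
    have h5 : (0 : ℝ) ≤ (c : ℝ) / 1000 * (1 + ((j : ℝ) + 1 - d) / ((b2 : ℝ) / b1) -
        ((j : ℝ) - d) / ((b1 : ℝ) / b0)) - ((b3 : ℝ) / b2 - (b2 : ℝ) / b1) := by
      rw [e]
      apply div_nonneg
      · linarith
      · positivity
    linarith

theorem fc_c3 (j d : ℕ) (hd : 1 ≤ d) (hdj : d ≤ j) (hj : j ≤ 28) : vv j d < av j d := by
  have hk := (fck_all j (by omega) d (by omega) hd hdj).2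
  rw [← bell_bl j (by omega), ← bell_bl (j + 1) (by omega)] at hk
  have h1 := fc_pos j
  have h2 := fc_pos (j + 1)
  unfold vv av ww ep
  rw [fc_cc]
  unfold ro qq
  generalize (Nat.bell j) = b1 at *
  generalize (Nat.bell (j + 1)) = b2 at *
  generalize fcc d = c at *
  unfold fck3 at hk
  rw [Bool.or_eq_true, decide_eq_true_eq, decide_eq_true_eq] at hk
  have hp1 : (0 : ℝ) < b2 + j * b1 := by positivity
  have hp2 : (0 : ℝ) < b2 + 2 * j * b1 := by positivity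
  have hp3 : (0 : ℝ) < 2 * (b2 + 2 * j * b1) * b2 + d * (b2 + j * b1) * b1 := by positivity
  have e0 : (1 : ℝ) / (2 + (d : ℝ) * ((1 + (j : ℝ) / ((b2 : ℝ) / b1)) / (1 + 2 * ((j : ℝ) / ((b2 : ℝ) / b1)))) /
      ((b2 : ℝ) / b1)) = (b2 + 2 * j * b1) * b2 / (2 * (b2 + 2 * j * b1) * b2 + d * (b2 + j * b1) * b1) := by
    have e1 : (1 + (j : ℝ) / ((b2 : ℝ) / b1)) = (b2 + j * b1) / b2 := by field_simp
    have e2 : (1 + 2 * ((j : ℝ) / ((b2 : ℝ) / b1))) = (b2 + 2 * j * b1) / b2 := by field_simp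
    rw [e1, e2]
    field_simp
  have e3 : (1 : ℝ) / (1 + (j : ℝ) / ((b2 : ℝ) / b1)) = b2 / (b2 + j * b1) := by field_simp
  rw [e0, e3]
  rcases hk with hk | hk
  · have hk' : (b2 : ℝ) * (2 * (b2 + 2 * j * b1) * b2 + d * (b2 + j * b1) * b1) <
        (b2 + 2 * j * b1) * b2 * (b2 + j * b1) := by exact_mod_cast hk
    apply lt_of_le_of_lt (min_le_left _ _)
    rw [div_lt_div_iff₀ hp1 hp3]
    exact hk'
  · have hk' : (c : ℝ) * (2 * (b2 + 2 * j * b1) * b2 + d * (b2 + j * b1) * b1) <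
        1000 * ((b2 + 2 * j * b1) * b2) := by exact_mod_cast hk
    apply lt_of_le_of_lt (min_le_right _ _)
    rw [div_lt_div_iff₀ (by norm_num) hp3]
    linarith

/-- `ro 29 = 2.4432...`, `dq 29 = 0.28709...` (needs `B_31`), `ww 30 = 0.28836...`. -/
theorem fc_29 : (24148 / 10000 : ℝ) ≤ ro 29 ∧ dq 29 ≤ 29 / 100 ∧ ww 30 ≤ 29 / 100 := by
  have h29 : Nat.bell 29 = 71339801938860275191172 := by
    rw [bell_bl 29 (by norm_num)]; rfl
  have h30 : Nat.bell 30 = 846749014511809332450147 := by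
    rw [bell_bl 30 (by norm_num)]; rfl
  have h31 : Nat.bell 31 = 10293358946226376485095653 := by
    rw [bell_bl 31 (by norm_num)]; rfl
  have q29 : qq 29 = 846749014511809332450147 / 71339801938860275191172 := by
    unfold qq
    rw [show 29 + 1 = 30 from rfl, h29, h30]
    norm_num
  have q30 : qq 30 = 10293358946226376485095653 / 846749014511809332450147 := by
    unfold qq
    rw [show 30 + 1 = 31 from rfl, h30, h31]
    norm_num
  refine ⟨?_, ?_, ?_⟩
  · unfold ro; rw [q29]; norm_num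
  · unfold dq; rw [show 29 + 1 = 30 from rfl, q29, q30]; norm_num
  · unfold ww ro; rw [q30]; norm_num

end Pool.H68.AQ
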