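import Pool.Agent.H68.AQ.Defs

/-!
# Module FG : stars

`starPlus n d` (AC/FDefs.lean) is `K_{1,d} ∪ (n-d-1) K_1` on `Fin n`.  If every edge of `G` contains `w` then `G` is isomorphic to
`starPlus (card V) (deg w)`: choose a bijection `V ≃ Fin n` sending `w` to `0`, the `d` neighbours of `w` to `1, ..., d` and the others to
`d+1, ..., n-1`.  Conversely an isomorphism `φ` gives `w = φ⁻¹ 0` (all edges contain it) with `deg w = d` (for `d < n`).
-/

namespace Pool.H68.AQ

open Finset Pool.H68.AC

variable {V : Type*} [Fintype V] [DecidableEq V]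

theorem FG_equiv {α β : Type*} [Fintype α] [Fintype β] [DecidableEq α] [DecidableEq β] (f : α → Fin 3) (g : β → Fin 3)
    (h : ∀ y, #(univ.filter fun x => f x = y) = #(univ.filter fun x => g x = y)) :
    ∃ e : α ≃ β, ∀ x, g (e x) = f x := by
  have h' : ∀ y, Nonempty ({x // f x = y} ≃ {x // g x = y}) := by
    intro y
    rw [← Fintype.card_eq, Fintype.card_subtype, Fintype.card_subtype]
    exact h y
  let k : ∀ y, {x // f x = y} ≃ {x // g x = y} := fun y => Classical.choice (h' y)
  refine ⟨(Equiv.sigmaFiberEquiv f).symm.trans ((Equiv.sigmaCongrRight k).trans (Equiv.sigmaFiberEquiv g)), ?_⟩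
  intro x
  exact (k (f x) ⟨x, rfl⟩).2

theorem FG_card (n d : ℕ) (hd : d < n) : #(univ.filter fun i : Fin n => 1 ≤ i.val ∧ i.val ≤ d) = d := by
  have h : #(univ.filter fun i : Fin n => 1 ≤ i.val ∧ i.val ≤ d) = #(Icc 1 d) := by
    apply Finset.card_nbij (fun i => i.val)
    · intro i hi
      have hi' : 1 ≤ i.val ∧ i.val ≤ d := by simpa using hi
      exact mem_coe.mpr (mem_Icc.mpr hi')
    · intro i _ j _ hij
      exact Fin.ext hij
    · intro m hm
      have hm' := mem_Icc.mp (mem_coe.mp hm)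
      refine ⟨⟨m, by omega⟩, ?_, rfl⟩
      simpa using hm'
  rw [h]
  simp

theorem fg_iso (G : SimpleGraph V) [DecidableRel G.Adj] (w : V) (h : ∀ x y, G.Adj x y → x = w ∨ y = w) :
    Nonempty (G ≃g starPlus (Fintype.card V) (G.degree w)) := by
  have hd : G.degree w < Fintype.card V := G.degree_lt_card_verts w
  generalize hdd : G.degree w = d at hd
  generalize hnn : Fintype.card V = n at hd
  let f : V → Fin 3 := fun x => if x = w then 0 else if G.Adj w x then 1 else 2
  let g : Fin n → Fin 3 := fun i => if i.val = 0 then 0 else if i.val ≤ d then 1 else 2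
  have f0 : ∀ x, f x = 0 ↔ x = w := by
    intro x
    by_cases h1 : x = w
    · simp [f, h1]
    · by_cases h2 : G.Adj w x
      · simp [f, h1, h2]
      · simp [f, h1, h2]
  have f1 : ∀ x, f x = 1 ↔ G.Adj w x := by
    intro x
    by_cases h1 : x = w
    · subst h1
      simp [f]
    · by_cases h2 : G.Adj w x
      · simp [f, h1, h2]
      · simp [f, h1, h2]
  have g0 : ∀ i, g i = 0 ↔ i.val = 0 := by
    intro i
    by_cases h1 : i.val = 0
    · simp [g, h1]
    · by_cases h2 : i.val ≤ d
      · simp only [g, h1, h2, if_true, if_false]; simp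
      · simp only [g, h1, h2, if_false]; simp
  have g1 : ∀ i, g i = 1 ↔ (1 ≤ i.val ∧ i.val ≤ d) := by
    intro i
    by_cases h1 : i.val = 0
    · simp [g, h1]
    · by_cases h2 : i.val ≤ d
      · simp only [g, h1, h2, if_true, if_false]; simp; omega
      · simp only [g, h1, h2, if_false]; simp
  have hf0 : #(univ.filter fun x => f x = 0) = 1 := by
    rw [Finset.card_eq_one]
    refine ⟨w, ?_⟩
    ext x
    simp [f0]
  have hg0 : #(univ.filter fun x => g x = 0) = 1 := by
    rw [Finset.card_eq_one]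
    refine ⟨⟨0, by omega⟩, ?_⟩
    ext x
    simp [g0, Fin.ext_iff]
  have hf1 : #(univ.filter fun x => f x = 1) = d := by
    rw [← hdd, ← SimpleGraph.card_neighborFinset_eq_degree]
    congr 1
    ext x
    simp [f1]
  have hg1 : #(univ.filter fun x => g x = 1) = d := by
    rw [← FG_card n d hd]
    congr 1
    ext x
    simp only [mem_filter, mem_univ, true_and, g1]
  have hsf : ∑ y : Fin 3, #(univ.filter fun x => f x = y) = n := by
    rw [← hnn, ← Finset.card_univ]
    exact (Finset.card_eq_sum_card_fiberwise (fun x _ => mem_coe.mpr (mem_univ (f x)))).symm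
  have hsg : ∑ y : Fin 3, #(univ.filter fun x => g x = y) = n := by
    conv_rhs => rw [← Fintype.card_fin n, ← Finset.card_univ]
    exact (Finset.card_eq_sum_card_fiberwise (fun x _ => mem_coe.mpr (mem_univ (g x)))).symm
  rw [Fin.sum_univ_three, hf0, hf1] at hsf
  rw [Fin.sum_univ_three, hg0, hg1] at hsg
  have hfg : ∀ y, #(univ.filter fun x => f x = y) = #(univ.filter fun x => g x = y) := by
    intro y
    fin_cases y
    · exact hf0.trans hg0.symm
    · exact hf1.trans hg1.symm
    · change #(univ.filter fun x => f x = 2) = #(univ.filter fun x => g x = 2)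
      omega
  obtain ⟨e, he⟩ := FG_equiv f g hfg
  have e0 : ∀ x, (e x).val = 0 ↔ x = w := fun x => by rw [← g0, he, f0]
  have e1 : ∀ x, (1 ≤ (e x).val ∧ (e x).val ≤ d) ↔ G.Adj w x := fun x => by rw [← g1, he, f1]
  refine ⟨⟨e, ?_⟩⟩
  intro x y
  change ((e x).val = 0 ∧ 1 ≤ (e y).val ∧ (e y).val ≤ d) ∨ ((e y).val = 0 ∧ 1 ≤ (e x).val ∧ (e x).val ≤ d) ↔ G.Adj x y
  rw [e0, e0, e1, e1]
  constructor
  · rintro (⟨rfl, h1⟩ | ⟨rfl, h1⟩)
    · exact h1
    · exact h1.symm
  · intro hxy
    rcases h x y hxy with rfl | rfl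
    · exact Or.inl ⟨rfl, hxy⟩
    · exact Or.inr ⟨rfl, hxy.symm⟩

omit [DecidableEq V] in
theorem fg_conv (G : SimpleGraph V) [DecidableRel G.Adj] (n d : ℕ) (hd : d < n) (φ : G ≃g starPlus n d) :
    ∃ w : V, G.degree w = d ∧ ∀ x y, G.Adj x y → x = w ∨ y = w := by
  have hA : ∀ x y, G.Adj x y ↔ ((φ x).val = 0 ∧ 1 ≤ (φ y).val ∧ (φ y).val ≤ d) ∨
      ((φ y).val = 0 ∧ 1 ≤ (φ x).val ∧ (φ x).val ≤ d) := by
    intro x y
    exact (φ.map_rel_iff (a := x) (b := y)).symm
  obtain ⟨w, hw⟩ := φ.surjective ⟨0, by omega⟩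
  have hw0 : (φ w).val = 0 := by rw [hw]
  have huniq : ∀ x, (φ x).val = 0 → x = w := by
    intro x hx
    apply φ.injective
    exact Fin.ext (hx.trans hw0.symm)
  refine ⟨w, ?_, ?_⟩
  · rw [← SimpleGraph.card_neighborFinset_eq_degree, ← FG_card n d hd]
    apply Finset.card_nbij (fun x => φ x)
    · intro x hx
      have hx' : G.Adj w x := by simpa using hx
      rw [hA, hw0] at hx'
      simp only [coe_filter, mem_univ, true_and, Set.mem_ofPred_eq]
      rcases hx' with h1 | h1
      · exact h1.2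
      · omega
    · intro x _ y _ hxy
      exact φ.injective hxy
    · intro i hi
      have hi' : 1 ≤ i.val ∧ i.val ≤ d := by simpa using hi
      obtain ⟨x, hx⟩ := φ.surjective i
      refine ⟨x, ?_, hx⟩
      have : G.Adj w x := by
        rw [hA, hx]
        exact Or.inl ⟨hw0, hi'⟩
      simpa using this
  · intro x y hxy
    rw [hA] at hxy
    rcases hxy with h1 | h1
    · exact Or.inl (huniq x h1.1)
    · exact Or.inr (huniq y h1.1)

end Pool.H68.AQ
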