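import Pool.Agent.H68.AQ.FV
import Pool.Agent.H68.AQ.FG

/-!
# Full Q1
-/

namespace Pool.H68.AQ

open Finset Pool.H68.AC

variable {V : Type*} [Fintype V] [DecidableEq V]

theorem fq_main [Nonempty V] (G : SimpleGraph V) [DecidableRel G.Adj] :
    L3 (Fintype.card V) (G.maxDegree + 1) ≤ avgColours G ∧
      (avgColours G = L3 (Fintype.card V) (G.maxDegree + 1) ↔
        Nonempty (G ≃g starPlus (Fintype.card V) G.maxDegree)) := by
  obtain ⟨w, hw⟩ := G.exists_maximal_degree_vertex
  have hm := fv_main G w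
  rw [← hw] at hm
  refine ⟨hm.1, fun h => ?_, ?_⟩
  · have := fg_iso G w (hm.2.1 h)
    rwa [← hw] at this
  · rintro ⟨φ⟩
    obtain ⟨u, hu, hu2⟩ := fg_conv G (Fintype.card V) G.maxDegree (G.maxDegree_lt_card_verts) φ
    have h := (fv_main G u).2.2 hu2
    rw [hu] at h
    exact h

end Pool.H68.AQ
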