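import Pool.Agent.H68.AQ.GS

/-!
# Module FV : every vertex

For every vertex `w` of `G`: `L3 n (deg w + 1) ≤ A(G)`, with equality iff every edge contains `w`.
`N + 1 = n = card V`, `T = univ.erase w`, `W = T.filter (¬ G.Adj w ·)`, `d = deg w`, `#W + d = N`.
* `d = 0`: `L3 n 1 = qq n - 1` : `∑_i C(n-1,i) B_{i+1} = B_{n+1} - B_n` and `∑_i C(n-1,i) B_i = B_n` (`rf_bell_succ`; Pascal); then `fi_main`
  (AC/FI.lean); all edges contain `w` iff `G = ⊥`.
* `1 ≤ d`, `W = ∅` (`d = N`): `fi_univ`, `fi_L3`, `fi_strict`, `fi_indep` (see `fi_star` for the same computation).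
* `1 ≤ d < N`: `gs_main`, `gs_strict` and `ZZ_insert`, `SS_insert`, `in_om_insert`, `fi_avg`, `fi_card`, `fi_sum`.
  If all edges contain `w`: equality because all terms are as for the edgeless graph: `om b = 1`, `ZZ (T \ b) = B_{N-#b}`,
  `SS f1 (T \ b) = (qq (N-#b) - 1) B_{N-#b}` (`fi_indep`, `ZZ_one`, `fi_om_bot`), and the sum is `∑_k C(m,k) B_{N-k} (qq (N-k) - L) = 0` by the definition
  of `L3`.
-/

namespace Pool.H68.AQ

open Finset Pool.H68.AC

variable {V : Type*} [Fintype V] [DecidableEq V]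

theorem FV_tot (m d : ℕ) : ∑ k ∈ range (m + 1), (m.choose k : ℝ) * ((Nat.bell (d + m - k + 1) : ℝ) -
    L3 (d + m + 1) (d + 1) * (Nat.bell (d + m - k) : ℝ)) = 0 := by
  have hB : ∀ n, (0 : ℝ) < (Nat.bell n : ℝ) := rf_bell_pos
  have e1 : ∑ k ∈ range (m + 1), (m.choose k : ℝ) * (Nat.bell (d + m - k) : ℝ) =
      ∑ i ∈ range (m + 1), (m.choose i : ℝ) * (Nat.bell (d + 1 + i - 1) : ℝ) := by
    rw [← Finset.sum_flip (n := m) (f := fun k => (m.choose k : ℝ) * (Nat.bell (d + m - k) : ℝ))]
    refine Finset.sum_congr rfl fun i hi => ?_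
    have hi' : i ≤ m := Nat.lt_succ_iff.1 (Finset.mem_range.1 hi)
    rw [Nat.choose_symm hi']
    congr 3
    omega
  have e2 : ∑ k ∈ range (m + 1), (m.choose k : ℝ) * (Nat.bell (d + m - k + 1) : ℝ) =
      ∑ i ∈ range (m + 1), (m.choose i : ℝ) * (Nat.bell (d + 1 + i) : ℝ) := by
    rw [← Finset.sum_flip (n := m)
      (f := fun k => (m.choose k : ℝ) * (Nat.bell (d + m - k + 1) : ℝ))]
    refine Finset.sum_congr rfl fun i hi => ?_
    have hi' : i ≤ m := Nat.lt_succ_iff.1 (Finset.mem_range.1 hi)
    rw [Nat.choose_symm hi']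
    congr 3
    omega
  have hpos : 0 < ∑ k ∈ range (m + 1), (m.choose k : ℝ) * (Nat.bell (d + m - k) : ℝ) := by
    refine Finset.sum_pos (fun k hk => ?_) ⟨0, by simp⟩
    have : (0 : ℝ) < (m.choose k : ℝ) := by
      exact_mod_cast Nat.choose_pos (Nat.lt_succ_iff.1 (Finset.mem_range.1 hk))
    exact mul_pos this (hB _)
  have hL : L3 (d + m + 1) (d + 1) * ∑ k ∈ range (m + 1), (m.choose k : ℝ) *
      (Nat.bell (d + m - k) : ℝ) =
      ∑ k ∈ range (m + 1), (m.choose k : ℝ) * (Nat.bell (d + m - k + 1) : ℝ) := by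
    rw [e2]
    unfold L3
    have e3 : d + m + 1 - (d + 1) = m := by omega
    rw [e3, ← e1]
    exact div_mul_cancel₀ _ hpos.ne'
  have h2 : ∀ k, (m.choose k : ℝ) * ((Nat.bell (d + m - k + 1) : ℝ) -
      L3 (d + m + 1) (d + 1) * (Nat.bell (d + m - k) : ℝ)) =
      (m.choose k : ℝ) * (Nat.bell (d + m - k + 1) : ℝ) -
        L3 (d + m + 1) (d + 1) * ((m.choose k : ℝ) * (Nat.bell (d + m - k) : ℝ)) := by
    intro k
    ring
  simp only [h2]
  rw [Finset.sum_sub_distrib, ← Finset.mul_sum, hL, sub_self]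

theorem FV_ZZ (G : SimpleGraph V) (T : Finset V) (hG : ∀ x ∈ T, ∀ y ∈ T, ¬ G.Adj x y) :
    ZZ (om G) T = (Nat.bell (#T) : ℝ) := by
  rw [← ZZ_one]
  unfold ZZ
  apply Finset.sum_congr rfl
  intro P _
  apply Finset.prod_congr rfl
  intro b hb
  exact fi_om_bot T b G hG (P.le hb)

theorem FV_eq (G : SimpleGraph V) (T W : Finset V) (hW : W ⊆ T)
    (hG : ∀ x ∈ T, ∀ y ∈ T, ¬ G.Adj x y) (m d : ℕ) (hT : #T = d + m) (hWm : #W = m) :
    ∑ b ∈ W.powerset, om G b * (ZZ (om G) (T \ b) + SS (fun b => f1 (#b)) (om G) (T \ b) -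
      L3 (d + m + 1) (d + 1) * ZZ (om G) (T \ b)) = 0 := by
  have hterm : ∀ b ∈ W.powerset,
      om G b * (ZZ (om G) (T \ b) + SS (fun b => f1 (#b)) (om G) (T \ b) -
      L3 (d + m + 1) (d + 1) * ZZ (om G) (T \ b)) =
      (fun k => (Nat.bell (d + m - k + 1) : ℝ) -
        L3 (d + m + 1) (d + 1) * (Nat.bell (d + m - k) : ℝ)) (#b) := by
    intro b hb
    have hbW := Finset.mem_powerset.1 hb
    have hbT := hbW.trans hW
    have hG' : ∀ x ∈ T \ b, ∀ y ∈ T \ b, ¬ G.Adj x y := fun x hx y hy =>
      hG x (Finset.mem_sdiff.1 hx).1 y (Finset.mem_sdiff.1 hy).1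
    have hc : #(T \ b) = d + m - #b := by
      rw [Finset.card_sdiff_of_subset hbT, hT]
    have hB := rf_bell_pos (d + m - #b)
    rw [fi_om_bot T b G hG hbT, fi_indep G (T \ b) hG' f1 (by simp [f1]), FV_ZZ G _ hG', Phi_f1, hc]
    have hq : qq (d + m - #b) * (Nat.bell (d + m - #b) : ℝ) = (Nat.bell (d + m - #b + 1) : ℝ) := by
      unfold qq
      exact div_mul_cancel₀ _ hB.ne'
    simp only
    rw [← hq]
    ring
  rw [Finset.sum_congr rfl hterm]
  refine (Finset.sum_powerset_apply_card
    (fun k => (Nat.bell (d + m - k + 1) : ℝ) -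
        L3 (d + m + 1) (d + 1) * (Nat.bell (d + m - k) : ℝ)) (x := W)).trans ?_
  rw [hWm, ← FV_tot m d]
  apply Finset.sum_congr rfl
  intro k _
  simp only [nsmul_eq_mul]

theorem FV_expand (G : SimpleGraph V) [DecidableRel G.Adj] (w : V) (L : ℝ) :
    SS (fun b => f1 (#b)) (om G) univ - L * ZZ (om G) univ =
      ∑ b ∈ ((univ.erase w).filter (fun x => ¬ G.Adj w x)).powerset,
        om G b * (ZZ (om G) (univ.erase w \ b) + SS (fun b => f1 (#b)) (om G) (univ.erase w \ b) -
          L * ZZ (om G) (univ.erase w \ b)) := by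
  have hi : insert w (univ.erase w) = (univ : Finset V) := Finset.insert_erase (Finset.mem_univ w)
  have hnw : w ∉ (univ.erase w : Finset V) := Finset.notMem_erase _ _
  set T := (univ.erase w : Finset V) with hT
  set W := T.filter (fun x => ¬ G.Adj w x) with hW
  have hWT : W ⊆ T := Finset.filter_subset _ _
  have e1 : ZZ (om G) univ = ∑ b ∈ T.powerset, om G (insert w b) * ZZ (om G) (T \ b) := by
    conv_lhs => rw [← hi]
    exact ZZ_insert _ hnw
  have e2 : SS (fun b => f1 (#b)) (om G) univ = ∑ b ∈ T.powerset, om G (insert w b) *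
      (f1 (#(insert w b)) * ZZ (om G) (T \ b) + SS (fun b => f1 (#b)) (om G) (T \ b)) := by
    conv_lhs => rw [← hi]
    exact SS_insert _ _ hnw
  rw [e1, e2, Finset.mul_sum, ← Finset.sum_sub_distrib]
  have hsub : W.powerset ⊆ T.powerset := Finset.powerset_mono.2 hWT
  rw [← Finset.sum_subset hsub (f := fun b => om G (insert w b) *
      (f1 (#(insert w b)) * ZZ (om G) (T \ b) + SS (fun b => f1 (#b)) (om G) (T \ b)) -
      L * (om G (insert w b) * ZZ (om G) (T \ b)))]
  · refine Finset.sum_congr rfl fun b hb => ?_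
    have hbW := Finset.mem_powerset.1 hb
    have hbT := hbW.trans hWT
    have h1 : om G (insert w b) = om G b := by
      rw [in_om_insert G hnw hbT, if_pos hbW]
    have h2 : f1 (#(insert w b)) = 1 := by
      unfold f1
      rw [if_neg]
      rw [Finset.card_insert_of_notMem (fun h => hnw (hbT h))]
      omega
    rw [h1, h2]
    ring
  · intro b hb hbW
    have hbT := Finset.mem_powerset.1 hb
    have h1 : om G (insert w b) = 0 := by
      rw [in_om_insert G hnw hbT, if_neg]
      intro h
      exact hbW (Finset.mem_powerset.2 h)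
    rw [h1]
    ring

theorem FV_avg (G : SimpleGraph V) : avgColours G * ZZ (om G) univ =
    SS (fun b => f1 (#b)) (om G) univ := by
  rw [fi_avg]
  unfold blockAvg
  rw [fi_card, fi_sum]
  have : (0 : ℝ) < ZZ (om G) univ := lt_of_lt_of_le one_pos (ZZ_om_pos G _)
  exact div_mul_cancel₀ _ this.ne'

theorem FV_cards (G : SimpleGraph V) [DecidableRel G.Adj] (w : V) :
    #((univ.erase w).filter (fun x => ¬ G.Adj w x)) + G.degree w = #(univ.erase w : Finset V) ∧
      #(univ.erase w : Finset V) + 1 = Fintype.card V := by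
  constructor
  · have h1 : (univ.erase w).filter (fun x => G.Adj w x) = G.neighborFinset w := by
      ext x
      simp only [Finset.mem_filter, Finset.mem_erase, Finset.mem_univ, and_true,
        SimpleGraph.mem_neighborFinset]
      constructor
      · intro h; exact h.2
      · intro h; exact ⟨h.ne', h⟩
    have h2 := Finset.card_filter_add_card_filter_not (s := (univ.erase w : Finset V))
      (fun x => G.Adj w x)
    rw [h1, SimpleGraph.card_neighborFinset_eq_degree] at h2
    omega
  · rw [Finset.card_erase_of_mem (Finset.mem_univ _), Finset.card_univ]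
    have := Fintype.card_pos_iff.2 ⟨w⟩
    omega

/-- all edges contain `w`: equality -/
theorem FV_all (G : SimpleGraph V) [DecidableRel G.Adj] (w : V)
    (h : ∀ x y, G.Adj x y → x = w ∨ y = w) :
    avgColours G = L3 (Fintype.card V) (G.degree w + 1) := by
  obtain ⟨hc1, hc2⟩ := FV_cards G w
  have hZ : (0 : ℝ) < ZZ (om G) univ := lt_of_lt_of_le one_pos (ZZ_om_pos G _)
  have hG : ∀ x ∈ (univ.erase w : Finset V), ∀ y ∈ (univ.erase w : Finset V), ¬ G.Adj x y := by
    intro x hx y hy hxy
    rcases h x y hxy with h1 | h1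
    · exact Finset.ne_of_mem_erase hx h1
    · exact Finset.ne_of_mem_erase hy h1
  have h1 := FV_eq G (univ.erase w) _ (Finset.filter_subset (fun x => ¬ G.Adj w x) _) hG
    (#((univ.erase w).filter (fun x => ¬ G.Adj w x))) (G.degree w) (by omega) rfl
  have e : Fintype.card V = G.degree w + #((univ.erase w).filter (fun x => ¬ G.Adj w x)) + 1 := by
    omega
  rw [← e] at h1
  rw [← FV_expand G w, ← FV_avg G, ← sub_mul] at h1
  have h2 := (mul_eq_zero.1 h1).resolve_right hZ.ne'
  linarith

theorem FV_zero (w : V) : L3 (Fintype.card V) 1 = avgColours (⊥ : SimpleGraph V) := by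
  classical
  have h := FV_all (⊥ : SimpleGraph V) w (by intro x y hxy; exact absurd hxy (by simp))
  rw [h]
  congr 1
  have : (⊥ : SimpleGraph V).degree w = 0 := by simp
  rw [this]

theorem fv_main (G : SimpleGraph V) [DecidableRel G.Adj] (w : V) :
    L3 (Fintype.card V) (G.degree w + 1) ≤ avgColours G ∧
      (avgColours G = L3 (Fintype.card V) (G.degree w + 1) ↔ ∀ x y, G.Adj x y → x = w ∨ y = w) := by
  obtain ⟨hc1, hc2⟩ := FV_cards G w
  have hZ : (0 : ℝ) < ZZ (om G) univ := lt_of_lt_of_le one_pos (ZZ_om_pos G _)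
  -- inequality, strict if some edge avoids `w`
  have key : L3 (Fintype.card V) (G.degree w + 1) ≤ avgColours G ∧
      (∀ x ∈ (univ.erase w : Finset V), ∀ y ∈ (univ.erase w : Finset V), G.Adj x y →
        L3 (Fintype.card V) (G.degree w + 1) < avgColours G) := by
    rcases Nat.eq_zero_or_pos (G.degree w) with hd0 | hd0
    · rw [hd0, zero_add, FV_zero w]
      have h1 := fi_main G
      refine ⟨h1.1, fun x _ y _ hxy => lt_of_le_of_ne h1.1 fun he => ?_⟩
      have h2 := h1.2.1 he.symm
      rw [h2] at hxy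
      exact absurd hxy (by simp)
    · set T := (univ.erase w : Finset V) with hT
      set W := T.filter (fun x => ¬ G.Adj w x) with hW
      have hWT : W ⊆ T := Finset.filter_subset _ _
      have hex := FV_expand G w (L3 (Fintype.card V) (G.degree w + 1))
      rw [← hT, ← hW, ← FV_avg G, ← sub_mul] at hex
      have hcard : Fintype.card V = #T + 1 := by omega
      rcases Nat.eq_zero_or_pos (#W) with hW0 | hW0
      · have hWe : W = ∅ := Finset.card_eq_zero.1 hW0
        have hdT : G.degree w = #T := by omega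
        have hL : L3 (Fintype.card V) (G.degree w + 1) = 1 + Phi f1 (#T) := by
          rw [hcard, hdT, fi_L3]
        have hom : om G ∅ = 1 := by
          unfold om
          rw [if_pos]
          intro x hx
          exact absurd hx (Finset.notMem_empty x)
        rw [hWe, Finset.powerset_empty, Finset.sum_singleton, hom, Finset.sdiff_empty, hL] at hex
        have h1 := main_ineq G f1 (#T) (fi_f1_cv _) T le_rfl
        rw [hL]
        constructor
        · have h2 : 0 ≤ (avgColours G - (1 + Phi f1 (#T))) * ZZ (om G) univ := by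
            rw [hex]; linarith
          have h3 := nonneg_of_mul_nonneg_left h2 hZ
          linarith
        · intro x hx y hy hxy
          have h1' := fi_strict G T hx hy hxy
          have h2 : 0 < (avgColours G - (1 + Phi f1 (#T))) * ZZ (om G) univ := by
            rw [hex]; linarith
          have h3 := (pos_iff_pos_of_mul_pos h2).2 hZ
          linarith
      · constructor
        · have h1 := gs_main G T W hWT (#T) (G.degree w) rfl hd0 hc1 hW0
          rw [← hcard, ← hex] at h1
          have h3 := nonneg_of_mul_nonneg_left h1 hZ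
          linarith
        · intro x hx y hy hxy
          have h1 := gs_strict G T W hWT (#T) (G.degree w) rfl hd0 hc1 hW0 x y hx hy hxy
          rw [← hcard, ← hex] at h1
          have h3 := (pos_iff_pos_of_mul_pos h1).2 hZ
          linarith
  refine ⟨key.1, fun he x y hxy => ?_, FV_all G w⟩
  by_contra hne
  rw [not_or] at hne
  have := key.2 x (Finset.mem_erase.2 ⟨hne.1, Finset.mem_univ _⟩) y
    (Finset.mem_erase.2 ⟨hne.2, Finset.mem_univ _⟩) hxy
  linarith

end Pool.H68.AQ
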