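import Pool.Agent.H68.AQ.GW

/-!
# Module GD : the deficit lemma

`#T = j`, `x ∉ T`, `z' = ZZ T`, `s' = SS f1 T`, `z = ZZ (insert x T)`, `s = SS f1 (insert x T)`, `R = {y ∈ T : ¬ G.Adj x y}`, `A_i = qq i - 1`,
`D = s - A_{j+1} z`.  Claim `z - qq j z' ≤ ep j D`.
1. `ZZ_insert`, `SS_insert`, `in_om_insert` (AC/IN.lean): `z = ∑_{b ⊆ R} om b ZZ (T \ b)`, `s = ∑_{b ⊆ R} om b (ZZ (T \ b) + SS f1 (T \ b))`.
   `L = z - z' = ∑_{∅ ≠ b ⊆ R} om b ZZ (T \ b) ≤ ∑_{∅ ≠ b ⊆ T} om b ZZ (T \ b) = s'` (`SS_eq`).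
2. `g k = 1 + A_{j-k} - A_{j+1}` for `k ≥ 1`, `g 0 = 0`.  For `b ≠ ∅` use `SS f1 (T \ b) ≥ A_{j-#b} ZZ (T \ b)` (`gw_pos`), for `b = ∅` keep `s'`:
   `D ≥ z' + s' - A_{j+1} z' + ∑_{∅ ≠ b ⊆ R} om b g(#b) ZZ (T \ b)`.
3. `γ = max (g 1) 0` (for `j ≥ 1`; for `j = 0` there is no nonempty `b`); `g k ≤ g 1` for `k ≥ 1` (`qq` monotone), so
   `∑_{∅ ≠ b ⊆ R} om b g ZZ ≥ ∑_{b ⊆ T} om b g ZZ - γ (s' - L) = SS g T - γ (s' - L)` (`SS_eq`).
4. `θ = 1 - dq j`; `f = g - θ f1` satisfies `Cv f j`: at `0`: `f 2 ≤ 2 f 1` iff `θ ≤ 2 g 1 - g 2 = 1 + 2 A_{j-1} - A_{j-2} - A_{j+1}`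
   `= 1 - dq j - dq (j-1) + dq (j-2)` for `j ≥ 2` (`dq_anti`); for `k ≥ 1`: `A_{j-k}` is concave in `k` (`dq_anti`).
   `main_ineq`: `SS f T ≥ Phi f j z'`, `SS f = SS g - θ s'`, `Phi f j = Phi g j - θ A_j`, and `Phi g j = - (1 + A_j - A_{j+1})` :
   this is `in_gg_sum` of AC/IN.lean with `f = f1` (`gg f1 j k = f1 (k+1) + Phi f1 (j-k) - Phi f1 (j+1)` for `k ≥ 1`; `Phi_f1`), so one may
   take `g = gg f1 j`.
5. Sum: `D ≥ (1 + θ)(s' - A_j z') - γ (s' - L)`, and `z - qq j z' = L - A_j z' = (s' - A_j z') - (s' - L) ≤ D / (1+θ) + (s' - L)(γ/(1+θ) - 1)`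
   `≤ D / (1 + θ)` since `γ ≤ 1 ≤ 1 + θ` (`θ ≥ 0`: `dq j ≤ ww j ≤ 1`) and `s' ≥ L`.
6. `1 / (1 + θ) = 1 / (2 - dq j) ≤ ep j` as `dq j ≤ ww j = 1/(1+ro j)` (`dq_le_ww`), and `D ≥ 0` (`gw_pos`).
-/

namespace Pool.H68.AQ

open Finset Pool.H68.AC

variable {V : Type*} [DecidableEq V]

theorem gd_f1_zero : f1 0 = 0 := by simp [f1]

theorem gd_f1_pos {k : ℕ} (hk : k ≠ 0) : f1 k = 1 := by simp [f1, hk]

theorem gd_gg_zero (j : ℕ) : gg f1 j 0 = 0 := by simp [gg]

theorem gd_gg_pos (j : ℕ) {k : ℕ} (hk : k ≠ 0) : gg f1 j k = 1 + qq (j - k) - qq (j + 1) := by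
  unfold gg
  rw [if_neg hk, gd_f1_pos (Nat.succ_ne_zero k), Phi_f1, Phi_f1]
  ring

theorem gd_qq_mono {a b : ℕ} (h : a ≤ b) : qq a ≤ qq b := by
  induction b, h using Nat.le_induction with
  | base => exact le_rfl
  | succ m hm ih =>
    have := dq_nonneg m
    unfold dq at this
    linarith

theorem gd_dq_le_one (j : ℕ) : dq j ≤ 1 := by
  refine (dq_le_ww j).trans ?_
  unfold ww
  rw [div_le_one (by have := ro_nonneg j; linarith)]
  have := ro_nonneg j
  linarith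

/-- step 4: the function `g - θ f1` is concave -/
theorem gd_cv (j : ℕ) : Cv (fun k => gg f1 j k - (1 - dq j) * f1 k) j := by
  refine ⟨by simp [gd_gg_zero, gd_f1_zero], ?_⟩
  intro k hk
  have h1 := (in_gg_cv (fi_f1_cv (j + 1))).2 k hk
  rcases Nat.eq_zero_or_pos k with h0 | h0
  · subst h0
    simp only [zero_add] at hk ⊢
    obtain ⟨m, rfl⟩ : ∃ m, j = m + 2 := ⟨j - 2, by omega⟩
    rw [gd_gg_pos _ (by norm_num : (2 : ℕ) ≠ 0), gd_gg_pos _ (by norm_num : (1 : ℕ) ≠ 0), gd_gg_zero,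
      gd_f1_zero, gd_f1_pos (by norm_num : (2 : ℕ) ≠ 0), gd_f1_pos (by norm_num : (1 : ℕ) ≠ 0)]
    have e1 : m + 2 - 2 = m := by omega
    have e2 : m + 2 - 1 = m + 1 := by omega
    rw [e1, e2]
    have h2 := dq_anti m
    unfold dq at h2 ⊢
    linarith
  · have a0 : f1 k = 1 := gd_f1_pos (by omega)
    have a1 : f1 (k + 1) = 1 := gd_f1_pos (by omega)
    have a2 : f1 (k + 2) = 1 := gd_f1_pos (by omega)
    have h2 : gg f1 j (k + 2) + gg f1 j k ≤ 2 * gg f1 j (k + 1) := h1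
    simp only [a0, a1, a2]
    linarith

theorem gd_Phi_sub (f g : ℕ → ℝ) (c : ℝ) (n : ℕ) :
    Phi (fun k => f k - c * g k) n = Phi f n - c * Phi g n := by
  unfold Phi
  rw [← mul_div_assoc, ← sub_div, Finset.mul_sum, ← Finset.sum_sub_distrib]
  congr 1
  apply Finset.sum_congr rfl
  intro k _
  ring

theorem gd_SS_sub (F H : Finset V → ℝ) (c : ℝ) (w : Finset V → ℝ) (T : Finset V) :
    SS (fun b => F b - c * H b) w T = SS F w T - c * SS H w T := by
  unfold SS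
  rw [Finset.mul_sum, ← Finset.sum_sub_distrib]
  apply Finset.sum_congr rfl
  intro P _
  rw [Finset.sum_sub_distrib, ← Finset.mul_sum]
  ring

/-- the sum over all partitions of `T` (step 4) -/
theorem gd_SSg (G : SimpleGraph V) (T : Finset V) (j : ℕ) (hT : #T = j) :
    (1 - dq j) * SS (fun b => f1 (#b)) (om G) T
      - ((1 + (qq j - 1) - (qq (j + 1) - 1)) + (1 - dq j) * (qq j - 1)) * ZZ (om G) T ≤
      SS (fun b => gg f1 j (#b)) (om G) T := by
  have h1 := main_ineq G (fun k => gg f1 j k - (1 - dq j) * f1 k) j (gd_cv j) T hT.le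
  rw [hT, gd_Phi_sub (gg f1 j) f1, gd_SS_sub (fun b => gg f1 j (#b)) (fun b => f1 (#b))] at h1
  have h2 := in_gg_sum (fi_f1_cv (j + 1))
  have h3 : g0 f1 j = 1 + (qq j - 1) - (qq (j + 1) - 1) := by
    unfold g0
    rw [gd_f1_pos one_ne_zero, Phi_f1, Phi_f1]
  have h4 : Phi (gg f1 j) j = -(1 + (qq j - 1) - (qq (j + 1) - 1)) := by
    rw [← h3]; linarith
  rw [h4, Phi_f1] at h1
  nlinarith

theorem gd_main (G : SimpleGraph V) (T : Finset V) (x : V) (hx : x ∉ T) (j : ℕ) (hT : #T = j) :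
    ZZ (om G) (insert x T) - qq j * ZZ (om G) T ≤
      ep j * (SS (fun b => f1 (#b)) (om G) (insert x T) - (qq (j + 1) - 1) * ZZ (om G) (insert x T)) := by
  classical
  set W := T.filter (fun y => ¬ G.Adj x y) with hWdef
  have hWT : W ⊆ T := Finset.filter_subset _ _
  have hom0 : om G ∅ = 1 := by
    unfold om; rw [if_pos]; intro x hx; simp at hx
  have homn := in_om_nonneg G
  have hZn : ∀ S : Finset V, 0 ≤ ZZ (om G) S := fun S => ZZ_nonneg _ homn S
  -- step 1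
  have ez : ZZ (om G) (insert x T) = ∑ b ∈ W.powerset, om G b * ZZ (om G) (T \ b) := by
    rw [ZZ_insert _ hx, ← Finset.sum_subset (Finset.powerset_mono.2 hWT)]
    · apply Finset.sum_congr rfl
      intro b hb
      have hbW := Finset.mem_powerset.1 hb
      rw [in_om_insert G hx (hbW.trans hWT), if_pos hbW]
    · intro b hb hb2
      have hbT := Finset.mem_powerset.1 hb
      rw [in_om_insert G hx hbT, if_neg (fun h => hb2 (Finset.mem_powerset.2 h)), zero_mul]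
  have es : SS (fun b => f1 (#b)) (om G) (insert x T) =
      ∑ b ∈ W.powerset, om G b * (ZZ (om G) (T \ b) + SS (fun b => f1 (#b)) (om G) (T \ b)) := by
    rw [SS_insert _ _ hx, ← Finset.sum_subset (Finset.powerset_mono.2 hWT)]
    · apply Finset.sum_congr rfl
      intro b hb
      have hbW := Finset.mem_powerset.1 hb
      have hbT := hbW.trans hWT
      rw [in_om_insert G hx hbT, if_pos hbW, Finset.card_insert_of_notMem (fun h => hx (hbT h)),
        gd_f1_pos (Nat.succ_ne_zero _), one_mul]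
    · intro b hb hb2
      have hbT := Finset.mem_powerset.1 hb
      rw [in_om_insert G hx hbT, if_neg (fun h => hb2 (Finset.mem_powerset.2 h)), zero_mul]
  set z := ZZ (om G) (insert x T) with hz
  set z' := ZZ (om G) T with hz'
  set s := SS (fun b => f1 (#b)) (om G) (insert x T) with hs
  set s' := SS (fun b => f1 (#b)) (om G) T with hs'
  have hmemW : (∅ : Finset V) ∈ W.powerset := Finset.empty_mem_powerset _
  have hmemT : (∅ : Finset V) ∈ T.powerset := Finset.empty_mem_powerset _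
  set L : ℝ := ∑ b ∈ W.powerset.erase ∅, om G b * ZZ (om G) (T \ b) with hL
  have hzL : z = z' + L := by
    rw [ez, ← Finset.add_sum_erase _ _ hmemW, hom0, Finset.sdiff_empty, one_mul]
  have es' : s' = ∑ b ∈ T.powerset.erase ∅, om G b * ZZ (om G) (T \ b) := by
    rw [hs', SS_eq _ _ (by simp [f1]), ← Finset.add_sum_erase _ _ hmemT]
    simp only [Finset.card_empty, gd_f1_zero, zero_mul, zero_add]
    apply Finset.sum_congr rfl
    intro b hb
    have hb0 : b ≠ ∅ := (Finset.mem_erase.1 hb).1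
    rw [gd_f1_pos (fun h => hb0 (Finset.card_eq_zero.1 h)), one_mul]
  have hsub : W.powerset.erase ∅ ⊆ T.powerset.erase ∅ :=
    Finset.erase_subset_erase _ (Finset.powerset_mono.2 hWT)
  have hLs : L ≤ s' := by
    rw [es']
    exact Finset.sum_le_sum_of_subset_of_nonneg hsub fun b _ _ => mul_nonneg (homn b) (hZn _)
  -- step 2
  set D : ℝ := s - (qq (j + 1) - 1) * z with hD
  have hDlow : (1 - (qq (j + 1) - 1)) * z' + s' +
      ∑ b ∈ W.powerset.erase ∅, gg f1 j (#b) * (om G b * ZZ (om G) (T \ b)) ≤ D := by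
    have e1 : D = ∑ b ∈ W.powerset, om G b * ((1 - (qq (j + 1) - 1)) * ZZ (om G) (T \ b) +
        SS (fun b => f1 (#b)) (om G) (T \ b)) := by
      rw [hD, es, ez, Finset.mul_sum, ← Finset.sum_sub_distrib]
      apply Finset.sum_congr rfl
      intro b _
      ring
    rw [e1, ← Finset.add_sum_erase _ _ hmemW, hom0, Finset.sdiff_empty, one_mul]
    apply add_le_add le_rfl
    apply Finset.sum_le_sum
    intro b hb
    have hb0 : b ≠ ∅ := (Finset.mem_erase.1 hb).1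
    have hbT : b ⊆ T := (Finset.mem_powerset.1 (Finset.mem_erase.1 hb).2).trans hWT
    have hcard : #(T \ b) = j - #b := by rw [Finset.card_sdiff_of_subset hbT, hT]
    have h1 := gw_pos G (T \ b) (j - #b) hcard
    rw [gd_gg_pos j (fun h => hb0 (Finset.card_eq_zero.1 h))]
    have h2 := mul_le_mul_of_nonneg_left h1 (homn b)
    nlinarith
  -- step 3
  set γ : ℝ := max (gg f1 j 1) 0 with hγ
  have hγ0 : 0 ≤ γ := le_max_right _ _
  have hγ1 : γ ≤ 1 := by
    apply max_le _ zero_le_one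
    rw [gd_gg_pos j one_ne_zero]
    have := gd_qq_mono (show j - 1 ≤ j + 1 by omega)
    linarith
  have hγk : ∀ b : Finset V, b ≠ ∅ → gg f1 j (#b) ≤ γ := by
    intro b hb
    have hb1 : #b ≠ 0 := fun h => hb (Finset.card_eq_zero.1 h)
    refine le_trans ?_ (le_max_left _ _)
    rw [gd_gg_pos j hb1, gd_gg_pos j one_ne_zero]
    have := gd_qq_mono (show j - #b ≤ j - 1 by omega)
    linarith
  have eSg : SS (fun b => gg f1 j (#b)) (om G) T =
      ∑ b ∈ T.powerset.erase ∅, gg f1 j (#b) * (om G b * ZZ (om G) (T \ b)) := by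
    rw [SS_eq _ _ (by simp [gg]), ← Finset.add_sum_erase _ _ hmemT]
    simp only [Finset.card_empty, gd_gg_zero, zero_mul, zero_add]
    apply Finset.sum_congr rfl
    intro b _
    ring
  have hstep3 : SS (fun b => gg f1 j (#b)) (om G) T - γ * (s' - L) ≤
      ∑ b ∈ W.powerset.erase ∅, gg f1 j (#b) * (om G b * ZZ (om G) (T \ b)) := by
    have h1 : ∑ b ∈ W.powerset.erase ∅, (γ - gg f1 j (#b)) * (om G b * ZZ (om G) (T \ b)) ≤
        ∑ b ∈ T.powerset.erase ∅, (γ - gg f1 j (#b)) * (om G b * ZZ (om G) (T \ b)) := by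
      apply Finset.sum_le_sum_of_subset_of_nonneg hsub
      intro b hb _
      have hb0 : b ≠ ∅ := (Finset.mem_erase.1 hb).1
      exact mul_nonneg (by have := hγk b hb0; linarith) (mul_nonneg (homn b) (hZn _))
    have h2 : ∀ A : Finset (Finset V), ∑ b ∈ A, (γ - gg f1 j (#b)) * (om G b * ZZ (om G) (T \ b)) =
        γ * ∑ b ∈ A, om G b * ZZ (om G) (T \ b) -
          ∑ b ∈ A, gg f1 j (#b) * (om G b * ZZ (om G) (T \ b)) := by
      intro A
      rw [Finset.mul_sum, ← Finset.sum_sub_distrib]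
      apply Finset.sum_congr rfl
      intro b _
      ring
    rw [h2, h2, ← es', ← eSg] at h1
    linarith
  -- steps 4 and 5
  have h4 := gd_SSg G T j hT
  have hdq1 := gd_dq_le_one j
  have hD5 : (1 + (1 - dq j)) * (s' - (qq j - 1) * z') - γ * (s' - L) ≤ D := by
    nlinarith
  have hD0 : 0 ≤ D := gw_pos G (insert x T) (j + 1) (by rw [Finset.card_insert_of_notMem hx, hT])
  have h5 : (1 + (1 - dq j)) * (z - qq j * z') ≤ D := by
    have e : z - qq j * z' = (s' - (qq j - 1) * z') - (s' - L) := by rw [hzL]; ring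
    rw [e]
    have h6 : γ * (s' - L) ≤ (1 + (1 - dq j)) * (s' - L) :=
      mul_le_mul_of_nonneg_right (by linarith) (by linarith)
    linarith
  -- step 6
  have hro := ro_nonneg j
  have hww := dq_le_ww j
  unfold ww at hww
  rw [le_div_iff₀ (by linarith)] at hww
  have hθ : 0 < 1 + (1 - dq j) := by linarith
  have h7 : 1 / (1 + (1 - dq j)) ≤ ep j := by
    unfold ep
    rw [div_le_div_iff₀ hθ (by linarith)]
    nlinarith
  have h8 : z - qq j * z' ≤ 1 / (1 + (1 - dq j)) * D := by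
    rw [one_div, ← div_eq_inv_mul, le_div_iff₀ hθ]
    linarith
  exact h8.trans (mul_le_mul_of_nonneg_right h7 hD0)

end Pool.H68.AQ
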