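import Pool.Agent.H68.AQ.GD

/-!
# Module GH : combination

`D = SS f1 T - (qq (j+1) - 1) ZZ T ≥ 0`, `#T = j+1`.  `gw_main`: `∑_{x ∈ T} (ZZ (T.erase x) - ZZ T / qq j) ≤ 2 D`; for `x ∈ T \ U` `gd_main` (for
`T.erase x`) gives `ZZ T / qq j - ZZ (T.erase x) ≤ ep j / qq j * D`.  Subtract.
-/

namespace Pool.H68.AQ

open Finset Pool.H68.AC

variable {V : Type*} [DecidableEq V]

theorem gh_main (G : SimpleGraph V) (T U : Finset V) (hU : U ⊆ T) (j : ℕ) (hT : #T = j + 1) :
    ∑ x ∈ U, (ZZ (om G) (T.erase x) - ZZ (om G) T / qq j) ≤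
      (2 + (#(T \ U) : ℝ) * ep j / qq j) *
        (SS (fun b => f1 (#b)) (om G) T - (qq (j + 1) - 1) * ZZ (om G) T) := by
  set D := SS (fun b => f1 (#b)) (om G) T - (qq (j + 1) - 1) * ZZ (om G) T with hD
  have hq := qq_pos j
  have hw := gw_main G T j hT
  rw [← hD] at hw
  have hsplit := Finset.sum_sdiff hU (f := fun x => ZZ (om G) (T.erase x) - ZZ (om G) T / qq j)
  have hdef : ∀ x ∈ T \ U, -(ep j / qq j * D) ≤ ZZ (om G) (T.erase x) - ZZ (om G) T / qq j := by
    intro x hx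
    have hxT := (Finset.mem_sdiff.1 hx).1
    have h := gd_main G (T.erase x) x (Finset.notMem_erase _ _) j (by
      rw [Finset.card_erase_of_mem hxT, hT]; rfl)
    rw [Finset.insert_erase hxT, ← hD] at h
    have h2 := div_le_div_of_nonneg_right h hq.le
    have e1 : (ZZ (om G) T - qq j * ZZ (om G) (T.erase x)) / qq j = ZZ (om G) T / qq j - ZZ (om G) (T.erase x) := by
      field_simp
    have e2 : ep j * D / qq j = ep j / qq j * D := by ring
    rw [e1, e2] at h2
    linarith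
  have hsum : -((#(T \ U) : ℝ) * (ep j / qq j * D)) ≤
      ∑ x ∈ T \ U, (ZZ (om G) (T.erase x) - ZZ (om G) T / qq j) := by
    have := Finset.sum_le_sum hdef
    rw [Finset.sum_const, nsmul_eq_mul] at this
    linarith
  have e3 : (2 + (#(T \ U) : ℝ) * ep j / qq j) * D = 2 * D + (#(T \ U) : ℝ) * (ep j / qq j * D) := by ring
  rw [e3]
  linarith

end Pool.H68.AQ
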