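import Pool.Agent.H68.AQ.NW

/-!
# Module SN : the Stein equation

`m = N - d ≥ 1`, `Z k = C(m,k) B_{N-k} > 0` (`0 ≤ k ≤ m`), `L = L3 (N+1) (d+1)`.
0. `∑_{k ≤ m} Z k (qq (N-k) - L) = 0` (definition of `L3`, `i = m - k`; `B_{N-k} qq (N-k) = B_{N-k+1}`).
1. `sn_partial`: if `Z > 0`, `r` is antitone on `{0..m}` and `∑_{k ≤ m} Z k r k ≥ 0` then `∑_{i ≤ k} Z i r i ≥ 0` for `k ≤ m`
   (if `r k ≥ 0` all terms are `≥ 0`; otherwise the remaining terms are `≤ 0`).
2. `κ k = (∑_{i ≤ k} Z i (qq (N-i) - L)) / ((m-k) C(m,k) B_{N-k-1})` for `k < m`, `κ k = 0` for `k ≥ m`.  `κ k ≥ 0` by 1 (`qq` monotone).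
   The equation: multiply by `Z k`: `Z k (m-k) / qq (N-k-1) = (m-k) C(m,k) B_{N-k-1}`, and for `k ≥ 1`
   `k Z k κ (k-1) = k C(m,k) B_{N-k} κ (k-1) = (m-k+1) C(m,k-1) B_{N-k} κ (k-1) = ∑_{i ≤ k-1} Z i (qq (N-i) - L)`.
3. `r k = (m-k) vv (N-k-1) d / qq (N-k-1) - k vv (N-k) d - qq (N-k) + L` is antitone: with `j = N-k-1`, `k < m`:
   `r k - r (k+1) = (j+1-d) vv j / qq j - (j-d) vv (j-1) / qq (j-1) + vv j + k (vv j - vv (j+1)) - dq j ≥ 0` by `vv_c1`, `vv_anti`
   (`d ≤ j`).  With `c k = (m-k) C(m,k) B_{N-k-1} vv (N-k-1) d` (`c m = 0`): `Z k r k = c k - c (k-1) - Z k (qq (N-k) - L)`, so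
   `∑_{i ≤ k} Z i r i = c k - ∑_{i ≤ k} Z i (qq (N-i) - L)`, which is `0` for `k = m` and `≥ 0` for all `k` by 1; for `k < m` this is
   `κ k ≤ vv (N-k-1) d`, and `vv_lt_av` finishes.
-/

namespace Pool.H68.AQ

open Finset Pool.H68.AC

theorem sn_partial (m : ℕ) (Z r : ℕ → ℝ) (hZ : ∀ k, k ≤ m → 0 < Z k) (hr : ∀ k, k < m → r (k + 1) ≤ r k)
    (hs : 0 ≤ ∑ i ∈ range (m + 1), Z i * r i) (k : ℕ) (hk : k ≤ m) : 0 ≤ ∑ i ∈ range (k + 1), Z i * r i := by
  have hmono : ∀ j, j ≤ m → ∀ i, i ≤ j → r j ≤ r i := by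
    intro j
    induction j with
    | zero =>
      intro _ i hi
      have : i = 0 := by omega
      subst this
      exact le_rfl
    | succ j ih =>
      intro hj i hi
      rcases Nat.lt_or_ge i (j + 1) with h | h
      · exact (hr j (by omega)).trans (ih (by omega) i (by omega))
      · have : i = j + 1 := by omega
        subst this
        exact le_rfl
  by_cases h0 : 0 ≤ r k
  · refine Finset.sum_nonneg fun i hi => ?_
    have hi' : i ≤ k := Nat.lt_succ_iff.1 (Finset.mem_range.1 hi)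
    exact mul_nonneg (hZ i (hi'.trans hk)).le (h0.trans (hmono k hk i hi'))
  · rw [not_le] at h0
    have hsplit : ∑ i ∈ range (m + 1), Z i * r i =
        ∑ i ∈ range (k + 1), Z i * r i + ∑ i ∈ Ico (k + 1) (m + 1), Z i * r i :=
      (Finset.sum_range_add_sum_Ico _ (by omega)).symm
    have hneg : ∑ i ∈ Ico (k + 1) (m + 1), Z i * r i ≤ 0 := by
      refine Finset.sum_nonpos fun i hi => ?_
      rw [Finset.mem_Ico] at hi
      exact mul_nonpos_of_nonneg_of_nonpos (hZ i (by omega)).le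
        ((hmono i (by omega) k (by omega)).trans h0.le)
    linarith

theorem sn_main (N d : ℕ) (hd : 1 ≤ d) (hN : d < N) : ∃ κ : ℕ → ℝ,
    (∀ k, k < N - d → 0 ≤ κ k ∧ κ k < av (N - k - 1) d) ∧
    (∀ k, k ≤ N - d →
      qq (N - k) - L3 (N + 1) (d + 1) - κ k * ((N : ℝ) - d - k) / qq (N - k - 1) + k * κ (k - 1) = 0) := by
  obtain ⟨m, rfl⟩ : ∃ m, N = d + m := ⟨N - d, by omega⟩
  have hm : 0 < m := by omega
  have hNd : d + m - d = m := by omega
  have hB : ∀ n, (0 : ℝ) < (Nat.bell n : ℝ) := rf_bell_pos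
  have hqq : ∀ j, qq j * (Nat.bell j : ℝ) = (Nat.bell (j + 1) : ℝ) := by
    intro j
    unfold qq
    exact div_mul_cancel₀ _ (hB j).ne'
  obtain ⟨L, hL⟩ : ∃ L, L = L3 (d + m + 1) (d + 1) := ⟨_, rfl⟩
  obtain ⟨Z, hZ⟩ : ∃ Z : ℕ → ℝ, ∀ k, Z k = (m.choose k : ℝ) * (Nat.bell (d + m - k) : ℝ) :=
    ⟨_, fun _ => rfl⟩
  have hZpos : ∀ k, k ≤ m → 0 < Z k := by
    intro k hk
    rw [hZ]
    have : (0 : ℝ) < (m.choose k : ℝ) := by exact_mod_cast Nat.choose_pos hk
    exact mul_pos this (hB _)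
  -- the total is zero
  have hLe : L * ∑ k ∈ range (m + 1), Z k =
      ∑ k ∈ range (m + 1), (m.choose k : ℝ) * (Nat.bell (d + m - k + 1) : ℝ) := by
    have e1 : ∑ k ∈ range (m + 1), Z k =
        ∑ i ∈ range (m + 1), (m.choose i : ℝ) * (Nat.bell (d + 1 + i - 1) : ℝ) := by
      rw [← Finset.sum_flip (n := m) (f := Z)]
      refine Finset.sum_congr rfl fun i hi => ?_
      have hi' : i ≤ m := Nat.lt_succ_iff.1 (Finset.mem_range.1 hi)
      rw [hZ, Nat.choose_symm hi']
      congr 3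
      omega
    have e2 : ∑ k ∈ range (m + 1), (m.choose k : ℝ) * (Nat.bell (d + m - k + 1) : ℝ) =
        ∑ i ∈ range (m + 1), (m.choose i : ℝ) * (Nat.bell (d + 1 + i) : ℝ) := by
      rw [← Finset.sum_flip (n := m)
        (f := fun k => (m.choose k : ℝ) * (Nat.bell (d + m - k + 1) : ℝ))]
      refine Finset.sum_congr rfl fun i hi => ?_
      have hi' : i ≤ m := Nat.lt_succ_iff.1 (Finset.mem_range.1 hi)
      rw [Nat.choose_symm hi']
      congr 3
      omega
    have hpos : 0 < ∑ k ∈ range (m + 1), Z k := by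
      refine Finset.sum_pos (fun k hk => hZpos k (Nat.lt_succ_iff.1 (Finset.mem_range.1 hk))) ?_
      exact ⟨0, by simp⟩
    rw [hL, e2]
    unfold L3
    have e3 : d + m + 1 - (d + 1) = m := by omega
    rw [e3, ← e1]
    exact div_mul_cancel₀ _ hpos.ne'
  have hZq : ∀ k, Z k * qq (d + m - k) = (m.choose k : ℝ) * (Nat.bell (d + m - k + 1) : ℝ) := by
    intro k
    rw [hZ, mul_assoc, mul_comm (Nat.bell (d + m - k) : ℝ), hqq]
  obtain ⟨P, hP⟩ : ∃ P : ℕ → ℝ, ∀ k, P k = ∑ i ∈ range (k + 1), Z i * (qq (d + m - i) - L) :=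
    ⟨_, fun _ => rfl⟩
  have hPm : P m = 0 := by
    rw [hP]
    have : ∀ i, Z i * (qq (d + m - i) - L) =
        (m.choose i : ℝ) * (Nat.bell (d + m - i + 1) : ℝ) - L * Z i := by
      intro i
      rw [mul_sub, hZq]
      ring
    simp only [this]
    rw [Finset.sum_sub_distrib, ← Finset.mul_sum, hLe, sub_self]
  have hPs : ∀ k, P (k + 1) = P k + Z (k + 1) * (qq (d + m - (k + 1)) - L) := by
    intro k
    rw [hP, hP, Finset.sum_range_succ]
  have hP0 : P 0 = Z 0 * (qq (d + m - 0) - L) := by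
    rw [hP, Finset.sum_range_succ, Finset.sum_range_zero, zero_add]
  have hPnn : ∀ k, k ≤ m → 0 ≤ P k := by
    intro k hk
    rw [hP]
    refine sn_partial m Z (fun i => qq (d + m - i) - L) hZpos ?_ ?_ k hk
    · intro i hi
      have h1 := dq_nonneg (d + m - (i + 1))
      unfold dq at h1
      have e : d + m - (i + 1) + 1 = d + m - i := by omega
      rw [e] at h1
      linarith
    · rw [← hP, hPm]
  -- the denominators
  obtain ⟨D, hD⟩ : ∃ D : ℕ → ℝ, ∀ k, D k =
      ((m : ℝ) - k) * (m.choose k : ℝ) * (Nat.bell (d + m - k - 1) : ℝ) := ⟨_, fun _ => rfl⟩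
  have hDpos : ∀ k, k < m → 0 < D k := by
    intro k hk
    rw [hD]
    have h1 : (0 : ℝ) < (m.choose k : ℝ) := by exact_mod_cast Nat.choose_pos hk.le
    have h2 : (0 : ℝ) < (m : ℝ) - k := by
      have : (k : ℝ) < m := by exact_mod_cast hk
      linarith
    exact mul_pos (mul_pos h2 h1) (hB _)
  have hDm : D m = 0 := by rw [hD]; ring
  have hZD : ∀ k, k ≤ m → Z k * (((m : ℝ) - k) / qq (d + m - k - 1)) = D k := by
    intro k hk
    have e : d + m - k = d + m - k - 1 + 1 := by omega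
    have h1 := hqq (d + m - k - 1)
    rw [← e] at h1
    have h2 := (hB (d + m - k - 1)).ne'
    have h3 := (qq_pos (d + m - k - 1)).ne'
    rw [hZ, hD, ← h1]
    field_simp
  have hkZ : ∀ k, k < m → ((k : ℝ) + 1) * Z (k + 1) = D k := by
    intro k hk
    rw [hZ, hD]
    have h1 := Nat.choose_succ_right_eq m k
    have h2 : ((m.choose (k + 1) : ℝ)) * ((k : ℝ) + 1) = (m.choose k : ℝ) * ((m : ℝ) - k) := by
      have : ((m.choose (k + 1) * (k + 1) : ℕ) : ℝ) = ((m.choose k * (m - k) : ℕ) : ℝ) := by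
        rw [h1]
      push_cast [Nat.cast_sub hk.le] at this
      exact this
    have e : d + m - (k + 1) = d + m - k - 1 := by omega
    rw [e]
    linear_combination (Nat.bell (d + m - k - 1) : ℝ) * h2
  -- the upper bound
  have hup : ∀ k, k < m → P k ≤ D k * vv (d + m - k - 1) d := by
    obtain ⟨r, hr⟩ : ∃ r : ℕ → ℝ, ∀ k, r k =
        ((m : ℝ) - k) / qq (d + m - k - 1) * vv (d + m - k - 1) d - k * vv (d + m - k) d
          - (qq (d + m - k) - L) := ⟨_, fun _ => rfl⟩
    have hsum : ∀ k, k ≤ m → ∑ i ∈ range (k + 1), Z i * r i =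
        D k * vv (d + m - k - 1) d - P k := by
      intro k
      induction k with
      | zero =>
        intro _
        rw [Finset.sum_range_succ, Finset.sum_range_zero, zero_add, hP0, ← hZD 0 (by omega), hr]
        push_cast
        ring
      | succ k ih =>
        intro hk
        rw [Finset.sum_range_succ, ih (by omega), hPs, ← hZD (k + 1) hk, hr]
        have h1 := hkZ k (by omega)
        have e : d + m - (k + 1) = d + m - k - 1 := by omega
        rw [e]
        push_cast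
        linear_combination (-(vv (d + m - k - 1) d)) * h1
    have hanti : ∀ k, k < m → r (k + 1) ≤ r k := by
      intro k hk
      obtain ⟨j, hj⟩ : ∃ j, d + m - k = j + 1 := ⟨d + m - k - 1, by omega⟩
      have hdj : d ≤ j := by omega
      have e1 : d + m - k - 1 = j := by omega
      have e2 : d + m - (k + 1) = j := by omega
      have e3 : d + m - (k + 1) - 1 = j - 1 := by omega
      have hmk : (m : ℝ) - k = (j : ℝ) + 1 - d := by
        have : (d : ℝ) + m = j + 1 + k := by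
          have h : d + m = j + 1 + k := by omega
          exact_mod_cast h
        linarith
      rw [hr, hr, e3, e2, e1, hj]
      push_cast
      have hmk1 : (m : ℝ) - ((k : ℝ) + 1) = (j : ℝ) - d := by linarith
      rw [hmk1, hmk]
      have h1 := vv_c1 j d hd hdj
      have h2 := vv_anti j d
      have h3 : dq j = qq (j + 1) - qq j := rfl
      have h4 : (0 : ℝ) ≤ (k : ℝ) * (vv j d - vv (j + 1) d) :=
        mul_nonneg (Nat.cast_nonneg k) (by linarith)
      have h5 : ((j : ℝ) + 1 - d) / qq j * vv j d = ((j : ℝ) + 1 - d) * vv j d / qq j := by ring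
      have h6 : ((j : ℝ) - d) / qq (j - 1) * vv (j - 1) d = ((j : ℝ) - d) * vv (j - 1) d / qq (j - 1) := by
        ring
      rw [h5, h6]
      rw [h3] at h1
      nlinarith
    intro k hk
    have h1 := sn_partial m Z r hZpos hanti (by rw [hsum m le_rfl, hDm, hPm]; simp) k hk.le
    rw [hsum k hk.le] at h1
    linarith
  -- the solution
  refine ⟨fun k => if k < m then P k / D k else 0, ?_, ?_⟩
  · intro k hk
    rw [hNd] at hk
    simp only [if_pos hk]
    refine ⟨div_nonneg (hPnn k hk.le) (hDpos k hk).le, ?_⟩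
    have h1 := vv_lt_av (d + m - k - 1) d hd (by omega)
    refine lt_of_le_of_lt ?_ h1
    rw [div_le_iff₀ (hDpos k hk), mul_comm]
    exact hup k hk
  · intro k hk
    rw [hNd] at hk
    have hZk := hZpos k hk
    have hcast : ((d + m : ℕ) : ℝ) - d - k = (m : ℝ) - k := by push_cast; ring
    rw [hcast, ← hL]
    -- multiply by `Z k`
    have hA : Z k * ((if k < m then P k / D k else 0) * ((m : ℝ) - k) / qq (d + m - k - 1)) =
        P k := by
      by_cases hkm : k < m
      · rw [if_pos hkm]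
        have h1 := hZD k hk
        have h2 := (hDpos k hkm).ne'
        have h3 : Z k * (P k / D k * ((m : ℝ) - k) / qq (d + m - k - 1)) =
            P k / D k * (Z k * (((m : ℝ) - k) / qq (d + m - k - 1))) := by ring
        rw [h3, h1]
        exact div_mul_cancel₀ _ h2
      · have : k = m := by omega
        subst this
        rw [if_neg hkm, hPm]
        ring
    rcases Nat.eq_zero_or_pos k with hk0 | hk0
    · subst hk0
      have h1 : Z 0 * (qq (d + m - 0) - L - (if 0 < m then P 0 / D 0 else 0) * ((m : ℝ) - (0 : ℕ)) /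
          qq (d + m - 0 - 1) + ((0 : ℕ) : ℝ) * (if 0 - 1 < m then P (0 - 1) / D (0 - 1) else 0)) = 0 := by
        rw [mul_add, mul_sub, hA, hP0]
        push_cast
        ring
      exact (mul_eq_zero.1 h1).resolve_left hZk.ne'
    · obtain ⟨i, rfl⟩ : ∃ i, k = i + 1 := ⟨k - 1, by omega⟩
      have him : i < m := by omega
      have h1 : Z (i + 1) * (qq (d + m - (i + 1)) - L - (if i + 1 < m then P (i + 1) / D (i + 1) else 0) *
          ((m : ℝ) - ((i + 1 : ℕ) : ℝ)) / qq (d + m - (i + 1) - 1) +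
          ((i + 1 : ℕ) : ℝ) * (if i + 1 - 1 < m then P (i + 1 - 1) / D (i + 1 - 1) else 0)) = 0 := by
        rw [mul_add, mul_sub, hA, hPs]
        have e : i + 1 - 1 = i := by omega
        rw [e, if_pos him]
        have h2 := hkZ i him
        have h3 : Z (i + 1) * (((i + 1 : ℕ) : ℝ) * (P i / D i)) = P i / D i * (((i : ℝ) + 1) * Z (i + 1)) := by
          push_cast
          ring
        rw [h3, h2, div_mul_cancel₀ _ (hDpos i him).ne']
        ring
      exact (mul_eq_zero.1 h1).resolve_left hZk.ne'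

end Pool.H68.AQ
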