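import Pool.Agent.H68.AQ.GH
import Pool.Agent.H68.AQ.SN

/-!
# Module GS : the main sum

`N = #T`, `W ⊆ T`, `#W + d = N`, `1 ≤ d`, `W ≠ ∅`; `κ` from `sn_main N d`; `L = L3 (N+1) (d+1)`; `Z b = ZZ (T \ b)`, `S b = SS f1 (T \ b)`, `k = #b`.
1. For `b ⊆ W`, `k < #W`: `gh_main` for `T \ b` and `U = W \ b` (`#((T \ b) \ (W \ b)) = d`, `j = N-k-1`):
   `∑_{x ∈ W \ b} (ZZ ((T \ b).erase x) - Z b / qq (N-k-1)) ≤ (S b - (qq (N-k) - 1) Z b) / av (N-k-1) d`; since `0 ≤ κ k < av` and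
   the right side is `≥ 0`: `S b ≥ (qq (N-k) - 1) Z b + κ k ∑_{x ∈ W \ b} (ZZ (T \ insert x b) - Z b / qq (N-k-1))`.
   For `k = #W`: `S b ≥ (qq (N-k) - 1) Z b` (`gw_pos`), the sum is empty.
2. `om b ≥ om (insert x b)` (`0` or `1`, hereditary).  So
   `∑_b om b (Z b + S b - L Z b) ≥ ∑_b om b Z b (qq (N-k) - L - κ k (N-d-k) / qq (N-k-1)) + ∑_b ∑_{x ∈ W \ b} κ #b om (insert x b) Z (insert x b)`
   and the last double sum is `∑_{b' ⊆ W} #b' κ (#b' - 1) om b' Z b'` (pairs `(b, x)` ↔ `(b' = insert x b, x ∈ b')`).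
   By the equation for `κ` the total is `0`.
3. Strictness: if `T` contains an edge then in 1 for `b = ∅` (`om ∅ = 1`, `0 < #W`) `S ∅ - (qq N - 1) Z ∅ > 0` (`fi_strict` with `Phi_f1`) and
   `κ 0 < av`, so the inequality is strict: if `X = ∑_{x ∈ W} (...) ≤ 0` then `D > 0 ≥ κ 0 X`; if `X > 0` then `D ≥ av X > κ 0 X`.
-/

namespace Pool.H68.AQ

open Finset Pool.H68.AC

variable {V : Type*} [DecidableEq V]

theorem gs_count (W : Finset V) (H : Finset V → ℝ) :
    ∑ b ∈ W.powerset, ∑ x ∈ W \ b, H (insert x b) = ∑ b ∈ W.powerset, (#b : ℝ) * H b := by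
  have h1 : ∀ b ∈ W.powerset, (#b : ℝ) * H b = ∑ x ∈ b, H b := by
    intro b _
    rw [Finset.sum_const, nsmul_eq_mul]
  rw [Finset.sum_congr rfl h1, Finset.sum_sigma', Finset.sum_sigma']
  refine Finset.sum_bij' (fun p _ => ⟨insert p.2 p.1, p.2⟩) (fun p _ => ⟨p.1.erase p.2, p.2⟩) ?_ ?_ ?_ ?_ ?_
  · rintro ⟨b, x⟩ h
    simp only [mem_sigma, mem_powerset, mem_sdiff] at h ⊢
    exact ⟨Finset.insert_subset h.2.1 h.1, Finset.mem_insert_self _ _⟩
  · rintro ⟨b, x⟩ h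
    simp only [mem_sigma, mem_powerset, mem_sdiff] at h ⊢
    exact ⟨(Finset.erase_subset _ _).trans h.1, h.1 h.2, Finset.notMem_erase _ _⟩
  · rintro ⟨b, x⟩ h
    simp only [mem_sigma, mem_powerset, mem_sdiff] at h
    simp only [Finset.erase_insert h.2.2]
  · rintro ⟨b, x⟩ h
    simp only [mem_sigma, mem_powerset] at h
    simp only [Finset.insert_erase h.2]
  · rintro ⟨b, x⟩ _
    rfl

theorem gs_av_pos (j d : ℕ) : 0 < av j d := by
  unfold av ep
  have h1 := ro_nonneg j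
  have h2 := qq_pos j
  positivity

/-- from the combination inequality to the inequality with a smaller constant -/
theorem gs_kappa {X D a κ : ℝ} (ha : 0 < a) (hX : X ≤ (1 / a) * D) (hD : 0 ≤ D) (hκ0 : 0 ≤ κ) (hκ : κ < a) :
    κ * X ≤ D ∧ (0 < D → κ * X < D) := by
  have h1 : a * X ≤ D := by
    have := mul_le_mul_of_nonneg_left hX ha.le
    rwa [← mul_assoc, mul_one_div_cancel ha.ne', one_mul] at this
  rcases le_or_gt X 0 with h | h
  · have h2 : κ * X ≤ 0 := mul_nonpos_of_nonneg_of_nonpos hκ0 h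
    exact ⟨h2.trans hD, fun h3 => lt_of_le_of_lt h2 h3⟩
  · have h2 : κ * X < a * X := mul_lt_mul_of_pos_right hκ h
    exact ⟨(h2.trans_le h1).le, fun _ => h2.trans_le h1⟩

theorem gs_term (G : SimpleGraph V) (T W : Finset V) (hW : W ⊆ T) (N d : ℕ) (hT : #T = N)
    (hWd : #W + d = N) (κ : ℕ → ℝ)
    (hκ : ∀ k, k < N - d → 0 ≤ κ k ∧ κ k < av (N - k - 1) d) (b : Finset V) (hb : b ⊆ W) :
    κ (#b) * ∑ x ∈ W \ b, (ZZ (om G) (T \ insert x b) - ZZ (om G) (T \ b) / qq (N - #b - 1)) ≤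
      SS (fun b => f1 (#b)) (om G) (T \ b) - (qq (N - #b) - 1) * ZZ (om G) (T \ b) ∧
    (#b < #W → 0 < SS (fun b => f1 (#b)) (om G) (T \ b) - (qq (N - #b) - 1) * ZZ (om G) (T \ b) →
    κ (#b) * ∑ x ∈ W \ b, (ZZ (om G) (T \ insert x b) - ZZ (om G) (T \ b) / qq (N - #b - 1)) <
      SS (fun b => f1 (#b)) (om G) (T \ b) - (qq (N - #b) - 1) * ZZ (om G) (T \ b)) := by
  have hbT : b ⊆ T := hb.trans hW
  have hcard : #(T \ b) = N - #b := by rw [Finset.card_sdiff_of_subset hbT, hT]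
  have hpos := gw_pos G (T \ b) (N - #b) hcard
  have hbW : #b ≤ #W := Finset.card_le_card hb
  rcases Nat.lt_or_ge (#b) (#W) with h | h
  · have hj : N - #b - 1 + 1 = N - #b := by omega
    have hU : W \ b ⊆ T \ b := Finset.sdiff_subset_sdiff hW (Finset.Subset.refl _)
    have hgh := gh_main G (T \ b) (W \ b) hU (N - #b - 1) (by rw [hcard, hj])
    rw [hj] at hgh
    have hd' : #((T \ b) \ (W \ b)) = d := by
      rw [Finset.card_sdiff_of_subset hU, hcard, Finset.card_sdiff_of_subset hb]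
      omega
    rw [hd'] at hgh
    have hk := hκ (#b) (by omega)
    have e1 : ∑ x ∈ W \ b, (ZZ (om G) (T \ insert x b) - ZZ (om G) (T \ b) / qq (N - #b - 1)) =
        ∑ x ∈ W \ b, (ZZ (om G) ((T \ b).erase x) - ZZ (om G) (T \ b) / qq (N - #b - 1)) := by
      apply Finset.sum_congr rfl
      intro x _
      rw [Finset.sdiff_insert]
    rw [e1]
    have e2 : (2 + (d : ℝ) * ep (N - #b - 1) / qq (N - #b - 1)) = 1 / av (N - #b - 1) d := by
      unfold av
      rw [one_div_one_div]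
    rw [e2] at hgh
    have := gs_kappa (gs_av_pos (N - #b - 1) d) hgh hpos hk.1 hk.2
    exact ⟨this.1, fun _ => this.2⟩
  · have : b = W := Finset.eq_of_subset_of_card_le hb h
    subst this
    rw [Finset.sdiff_self, Finset.sum_empty, mul_zero]
    exact ⟨hpos, fun h2 => absurd h2 (lt_irrefl _)⟩

theorem gs_om_insert_le (G : SimpleGraph V) (b : Finset V) (x : V) : om G (insert x b) ≤ om G b := by
  classical
  unfold om
  split_ifs with h1 h2
  · exact le_rfl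
  · exact absurd (fun y hy z hz => h1 y (Finset.mem_insert_of_mem hy) z (Finset.mem_insert_of_mem hz)) h2
  · norm_num
  · exact le_rfl

/-- the lower bound for the term of `b` -/
theorem gs_term2 (G : SimpleGraph V) (T W : Finset V) (hW : W ⊆ T) (N d : ℕ) (hT : #T = N)
    (hWd : #W + d = N) (κ : ℕ → ℝ)
    (hκ : ∀ k, k < N - d → 0 ≤ κ k ∧ κ k < av (N - k - 1) d) (L : ℝ) (b : Finset V) (hb : b ⊆ W) :
    om G b * ZZ (om G) (T \ b) * (qq (N - #b) - L - κ (#b) * ((N : ℝ) - d - #b) / qq (N - #b - 1)) +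
      ∑ x ∈ W \ b, κ (#(insert x b) - 1) * om G (insert x b) * ZZ (om G) (T \ insert x b) ≤
      om G b * (ZZ (om G) (T \ b) + SS (fun b => f1 (#b)) (om G) (T \ b) - L * ZZ (om G) (T \ b)) ∧
    (om G b = 1 → #b < #W → 0 < SS (fun b => f1 (#b)) (om G) (T \ b) - (qq (N - #b) - 1) * ZZ (om G) (T \ b) →
    om G b * ZZ (om G) (T \ b) * (qq (N - #b) - L - κ (#b) * ((N : ℝ) - d - #b) / qq (N - #b - 1)) +
      ∑ x ∈ W \ b, κ (#(insert x b) - 1) * om G (insert x b) * ZZ (om G) (T \ insert x b) <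
      om G b * (ZZ (om G) (T \ b) + SS (fun b => f1 (#b)) (om G) (T \ b) - L * ZZ (om G) (T \ b))) := by
  have hbW : #b ≤ #W := Finset.card_le_card hb
  have ht := gs_term G T W hW N d hT hWd κ hκ b hb
  have hom := in_om_nonneg G b
  have hNd : ((N : ℝ) - d - #b) = (#(W \ b) : ℝ) := by
    rw [Finset.card_sdiff_of_subset hb, Nat.cast_sub hbW]
    have : ((#W : ℝ) + d) = N := by exact_mod_cast hWd
    linarith
  have e0 : ∑ x ∈ W \ b, (ZZ (om G) (T \ insert x b) - ZZ (om G) (T \ b) / qq (N - #b - 1)) =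
      ∑ x ∈ W \ b, ZZ (om G) (T \ insert x b) - ((N : ℝ) - d - #b) * (ZZ (om G) (T \ b) / qq (N - #b - 1)) := by
    rw [Finset.sum_sub_distrib, Finset.sum_const, nsmul_eq_mul, hNd]
  have e1 : ∑ x ∈ W \ b, κ (#(insert x b) - 1) * om G (insert x b) * ZZ (om G) (T \ insert x b) ≤
      om G b * (κ (#b) * ∑ x ∈ W \ b, ZZ (om G) (T \ insert x b)) := by
    rw [Finset.mul_sum, Finset.mul_sum]
    apply Finset.sum_le_sum
    intro x hx
    have hx' := Finset.mem_sdiff.1 hx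
    have hc : #(insert x b) - 1 = #b := by
      rw [Finset.card_insert_of_notMem hx'.2]; omega
    have hlt : #b < #W := by
      have := Finset.card_le_card (Finset.insert_subset hx'.1 hb)
      rw [Finset.card_insert_of_notMem hx'.2] at this
      omega
    have hk := (hκ (#b) (by omega)).1
    have hZ : 0 ≤ ZZ (om G) (T \ insert x b) := ZZ_nonneg _ (in_om_nonneg G) _
    have hle := gs_om_insert_le G b x
    rw [hc]
    have h3 : κ (#b) * om G (insert x b) ≤ κ (#b) * om G b := mul_le_mul_of_nonneg_left hle hk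
    have h4 := mul_le_mul_of_nonneg_right h3 hZ
    linarith
  rw [e0] at ht
  refine ⟨?_, fun h1 h2 h3 => ?_⟩
  · have h4 := mul_le_mul_of_nonneg_left ht.1 hom
    have h5 : om G b * ZZ (om G) (T \ b) * (qq (N - #b) - L - κ (#b) * ((N : ℝ) - d - #b) / qq (N - #b - 1)) =
        om G b * ((qq (N - #b) - 1) * ZZ (om G) (T \ b)) + om G b * (ZZ (om G) (T \ b) - L * ZZ (om G) (T \ b)) -
        om G b * (κ (#b) * (((N : ℝ) - d - #b) * (ZZ (om G) (T \ b) / qq (N - #b - 1)))) := by ring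
    rw [h5]
    nlinarith
  · have h4 := ht.2 h2 h3
    rw [h1] at e1 ⊢
    have h5 : 1 * ZZ (om G) (T \ b) * (qq (N - #b) - L - κ (#b) * ((N : ℝ) - d - #b) / qq (N - #b - 1)) =
        ((qq (N - #b) - 1) * ZZ (om G) (T \ b)) + (ZZ (om G) (T \ b) - L * ZZ (om G) (T \ b)) -
        (κ (#b) * (((N : ℝ) - d - #b) * (ZZ (om G) (T \ b) / qq (N - #b - 1)))) := by ring
    rw [h5]
    linarith

theorem gs_zero (G : SimpleGraph V) (T W : Finset V) (N d : ℕ)
    (hWd : #W + d = N) (κ : ℕ → ℝ) (L : ℝ)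
    (hκ : ∀ k, k ≤ N - d →
      qq (N - k) - L - κ k * ((N : ℝ) - d - k) / qq (N - k - 1) + k * κ (k - 1) = 0) :
    ∑ b ∈ W.powerset, (om G b * ZZ (om G) (T \ b) *
      (qq (N - #b) - L - κ (#b) * ((N : ℝ) - d - #b) / qq (N - #b - 1)) +
      ∑ x ∈ W \ b, κ (#(insert x b) - 1) * om G (insert x b) * ZZ (om G) (T \ insert x b)) = 0 := by
  rw [Finset.sum_add_distrib, gs_count W (fun b => κ (#b - 1) * om G b * ZZ (om G) (T \ b)),
    ← Finset.sum_add_distrib]
  apply Finset.sum_eq_zero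
  intro b hb
  have hb' := Finset.mem_powerset.1 hb
  have hbW : #b ≤ #W := Finset.card_le_card hb'
  have h := hκ (#b) (by omega)
  have h2 : om G b * ZZ (om G) (T \ b) *
      (qq (N - #b) - L - κ (#b) * ((N : ℝ) - d - #b) / qq (N - #b - 1)) +
      (#b : ℝ) * (κ (#b - 1) * om G b * ZZ (om G) (T \ b)) =
      om G b * ZZ (om G) (T \ b) *
      (qq (N - #b) - L - κ (#b) * ((N : ℝ) - d - #b) / qq (N - #b - 1) + #b * κ (#b - 1)) := by ring
  rw [h2, h, mul_zero]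

/-- `fi_strict` without the hypothesis that `V` is finite -/
theorem gs_edge (G : SimpleGraph V) (T : Finset V) {x y : V} (hx : x ∈ T) (hy : y ∈ T) (hxy : G.Adj x y) :
    Phi f1 (#T) * ZZ (om G) T < SS (fun b => f1 (#b)) (om G) T := by
  obtain ⟨T', hxT', rfl⟩ : ∃ T', x ∉ T' ∧ insert x T' = T :=
    ⟨T.erase x, Finset.notMem_erase _ _, Finset.insert_erase hx⟩
  have hyT' : y ∈ T' := by
    rcases Finset.mem_insert.1 hy with h | h
    · exact absurd h.symm hxy.ne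
    · exact h
  rw [Finset.card_insert_of_notMem hxT']
  have hk : 1 ≤ #T' := Finset.card_pos.2 ⟨y, hyT'⟩
  exact main_strict G f1 (#T' + 1) (fi_f1_cv _) x y T' hxT' le_rfl hyT' hxy (fi_hpos _ hk)

theorem gs_main (G : SimpleGraph V) (T W : Finset V) (hW : W ⊆ T) (N d : ℕ) (hT : #T = N) (hd : 1 ≤ d)
    (hWd : #W + d = N) (hW0 : 0 < #W) :
    0 ≤ ∑ b ∈ W.powerset, om G b * (ZZ (om G) (T \ b) + SS (fun b => f1 (#b)) (om G) (T \ b) -
      L3 (N + 1) (d + 1) * ZZ (om G) (T \ b)) := by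
  obtain ⟨κ, hκ1, hκ2⟩ := sn_main N d hd (by omega)
  rw [← gs_zero G T W N d hWd κ _ hκ2]
  apply Finset.sum_le_sum
  intro b hb
  exact (gs_term2 G T W hW N d hT hWd κ hκ1 _ b (Finset.mem_powerset.1 hb)).1

theorem gs_strict (G : SimpleGraph V) (T W : Finset V) (hW : W ⊆ T) (N d : ℕ) (hT : #T = N) (hd : 1 ≤ d)
    (hWd : #W + d = N) (hW0 : 0 < #W) (x y : V) (hx : x ∈ T) (hy : y ∈ T) (hxy : G.Adj x y) :
    0 < ∑ b ∈ W.powerset, om G b * (ZZ (om G) (T \ b) + SS (fun b => f1 (#b)) (om G) (T \ b) -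
      L3 (N + 1) (d + 1) * ZZ (om G) (T \ b)) := by
  obtain ⟨κ, hκ1, hκ2⟩ := sn_main N d hd (by omega)
  rw [← gs_zero G T W N d hWd κ _ hκ2]
  apply Finset.sum_lt_sum
  · intro b hb
    exact (gs_term2 G T W hW N d hT hWd κ hκ1 _ b (Finset.mem_powerset.1 hb)).1
  · refine ⟨∅, Finset.empty_mem_powerset _, ?_⟩
    apply (gs_term2 G T W hW N d hT hWd κ hκ1 _ ∅ (Finset.empty_subset _)).2
    · unfold om
      rw [if_pos]
      intro x hx
      simp at hx
    · simpa using hW0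
    · rw [Finset.sdiff_empty, Finset.card_empty, Nat.sub_zero]
      have h := gs_edge G T hx hy hxy
      rw [Phi_f1, hT] at h
      linarith

end Pool.H68.AQ
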