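import Pool.Agent.H68.AQ.NS

/-!
# Module GW : singletons

`om G` is the weight of independent sets; `ZZ (om G) T` = number of stable partitions of `G[T]`, `SS (fun b => f1 #b) (om G) T`
= total number of blocks (`f1 0 = 0`, `f1 k = 1` for `k ≥ 1`).  `gw_main`: apply `main_ineq` to
`f k = if k = 0 then 0 else if k = 1 then 1/2 else 1` (`Cv f N` for all `N`).
`SS f = SS f1 - 1/2 ∑_{x ∈ T} ZZ (T.erase x)` : `SS_eq` for both, the blocks with one element (`om G {x} = 1`).
`Phi f (j+1) = Phi f1 (j+1) - 1/2 (j+1) B_j / B_{j+1}` (definition of `Phi`, only the term `k = 1` differs), `Phi_f1`.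
-/

namespace Pool.H68.AQ

open Finset Pool.H68.AC

variable {V : Type*} [DecidableEq V]

/-- the function `0, 1/2, 1, 1, ...` -/
noncomputable def gwf : ℕ → ℝ := fun k => if k = 0 then 0 else if k = 1 then 1 / 2 else 1

theorem gwf_cv (N : ℕ) : Cv gwf N := by
  refine ⟨by simp [gwf], ?_⟩
  intro k _
  unfold gwf
  rcases k with _ | _ | k
  · norm_num
  · norm_num
  · simp; norm_num

theorem gwf_eq (k : ℕ) : gwf k = f1 k - (if k = 1 then 1 / 2 else 0) := by
  unfold gwf f1
  rcases k with _ | _ | k <;> norm_num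

theorem gw_phi (j : ℕ) : Phi gwf (j + 1) = (qq (j + 1) - 1) - 1 / 2 * (((j : ℝ) + 1) / qq j) := by
  rw [← Phi_f1]
  have hB := rf_bell_pos (j + 1)
  have hB0 := rf_bell_pos j
  have h1 : ∑ k ∈ range (j + 1 + 1), ((j + 1).choose k : ℝ) * (Nat.bell (j + 1 - k) : ℝ) * gwf k =
      ∑ k ∈ range (j + 1 + 1), ((j + 1).choose k : ℝ) * (Nat.bell (j + 1 - k) : ℝ) * f1 k -
        ((j : ℝ) + 1) * (Nat.bell j : ℝ) * (1 / 2) := by
    have : ∀ k ∈ range (j + 1 + 1), ((j + 1).choose k : ℝ) * (Nat.bell (j + 1 - k) : ℝ) * gwf k =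
        ((j + 1).choose k : ℝ) * (Nat.bell (j + 1 - k) : ℝ) * f1 k -
        (if k = 1 then ((j : ℝ) + 1) * (Nat.bell j : ℝ) * (1 / 2) else 0) := by
      intro k _
      rw [gwf_eq]
      split_ifs with hk
      · subst hk
        rw [Nat.choose_one_right, Nat.add_sub_cancel]
        push_cast; ring
      · ring
    rw [Finset.sum_congr rfl this, Finset.sum_sub_distrib, Finset.sum_ite_eq' (range (j + 1 + 1)) 1, if_pos (by simp)]
  unfold Phi
  rw [h1]
  unfold qq
  field_simp

theorem gw_sing (G : SimpleGraph V) (T : Finset V) :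
    SS (fun b => gwf (#b)) (om G) T = SS (fun b => f1 (#b)) (om G) T - 1 / 2 * ∑ x ∈ T, ZZ (om G) (T.erase x) := by
  classical
  rw [SS_eq _ _ (by simp [gwf]), SS_eq _ _ (by simp [f1])]
  have h1 : ∀ b ∈ T.powerset, gwf (#b) * om G b * ZZ (om G) (T \ b) =
      f1 (#b) * om G b * ZZ (om G) (T \ b) -
        (if #b = 1 then 1 / 2 * (om G b * ZZ (om G) (T \ b)) else 0) := by
    intro b _
    rw [gwf_eq]
    split_ifs <;> ring
  rw [Finset.sum_congr rfl h1, Finset.sum_sub_distrib]
  congr 1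
  rw [← Finset.sum_filter, Finset.mul_sum]
  have h2 : T.powerset.filter (fun b => #b = 1) = T.image (fun x => ({x} : Finset V)) := by
    ext b
    simp only [mem_filter, mem_powerset, mem_image]
    constructor
    · rintro ⟨h3, h4⟩
      obtain ⟨x, rfl⟩ := Finset.card_eq_one.1 h4
      exact ⟨x, by simpa using h3, rfl⟩
    · rintro ⟨x, hx, rfl⟩
      exact ⟨by simpa using hx, by simp⟩
  rw [h2, Finset.sum_image (by intro x _ y _ h; simpa using h)]
  apply Finset.sum_congr rfl
  intro x _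
  have h3 : om G {x} = 1 := by
    unfold om
    rw [if_pos]
    intro a ha b hb
    rw [Finset.mem_singleton] at ha hb
    subst ha; subst hb
    exact G.irrefl
  rw [h3, one_mul, Finset.sdiff_singleton_eq_erase]

theorem gw_main (G : SimpleGraph V) (T : Finset V) (j : ℕ) (hT : #T = j + 1) :
    ∑ x ∈ T, (ZZ (om G) (T.erase x) - ZZ (om G) T / qq j) ≤
      2 * (SS (fun b => f1 (#b)) (om G) T - (qq (j + 1) - 1) * ZZ (om G) T) := by
  have h := main_ineq G gwf (j + 1) (gwf_cv _) T hT.le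
  rw [hT, gw_phi, gw_sing] at h
  rw [Finset.sum_sub_distrib, Finset.sum_const, nsmul_eq_mul, hT]
  have hq := qq_pos j
  have e : (((j + 1 : ℕ) : ℝ)) * (ZZ (om G) T / qq j) = (((j : ℝ) + 1) / qq j) * ZZ (om G) T := by
    push_cast; ring
  rw [e]
  linarith

/-- the weak form in this notation -/
theorem gw_pos (G : SimpleGraph V) (T : Finset V) (j : ℕ) (hT : #T = j) :
    0 ≤ SS (fun b => f1 (#b)) (om G) T - (qq j - 1) * ZZ (om G) T := by
  have h := main_ineq G f1 j (fi_f1_cv j) T hT.le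
  rw [hT, Phi_f1] at h
  linarith

end Pool.H68.AQ
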