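import Pool.Agent.H68.AQ.Defs

/-!
# Module NS : basic facts on `qq`

Everything in `Pool.H68.AC` may be used (`AC/NA.lean`: `pp n = PP (n+1) / PP n`, `PP n = B_n / n!`, `pp_anti`;
`AC/RF.lean`: `rf_bell_pos`, `rf_bell_succ`, `Phi_rec`, `Phi_const`; `AC/PF.lean`: `phi_cv`, `pf_const`;
`AC/FI.lean`: `f1`, `fi_f1_cv`).
* `Phi_f1` : `Phi_const`.
* `qq_pos`; `qq_one_le`: `B_{j+1} ≥ B_j` (the term `k = 0` of `rf_bell_succ`).
* `dq_anti` : `phi_cv f1` (concavity of `qq j - 1`).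
* `dq_le` : `pp` antitone says `qq (j+1) / (j+2) ≤ qq j / (j+1)`, i.e. `(j+1) (qq (j+1) - qq j) ≤ qq j`.
* `dq_nonneg`: `qq_mono` of NA (`(n+1) pp n = qq n`).
* `dq_le_ww` : `Phi_rec f1` reads `B_{j+1} (qq (j+1) - 1) = ∑_{k ≤ j} C(j,k) B_{j-k} (1 + qq (j-k) - 1)`, so
  `∑_{k ≤ j} C(j,k) B_{j-k} (qq (j+1) - qq (j-k)) = B_{j+1}`; `qq (j+1) - qq (j-k) ≥ (k+1) dq j` (`dq` antitone), and
  `∑_k C(j,k) B_{j-k} (k+1) = B_{j+1} + j B_j` (`k C(j,k) = j C(j-1,k-1)` and `rf_bell_succ (j-1)`), hence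
  `dq j (B_{j+1} + j B_j) ≤ B_{j+1}`, that is `dq j (1 + ro j) ≤ 1`.
* `ww_anti` : `ro` is monotone: `j / qq j ≤ (j+1) / qq (j+1)` from `dq_le`: `j qq (j+1) ≤ j qq j + qq j`.
-/

namespace Pool.H68.AQ

open Finset Pool.H68.AC

theorem Phi_f1 (n : ℕ) : Phi f1 n = qq n - 1 := Phi_const n

theorem qq_one_le (j : ℕ) : 1 ≤ qq j := by
  unfold qq
  rw [one_le_div (rf_bell_pos j), rf_bell_succ j]
  have h : ((j.choose 0 : ℕ) : ℝ) * (Nat.bell (j - 0) : ℝ) ≤
      ∑ k ∈ range (j + 1), (j.choose k : ℝ) * (Nat.bell (j - k) : ℝ) := by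
    apply Finset.single_le_sum (f := fun k => (j.choose k : ℝ) * (Nat.bell (j - k) : ℝ))
    · intro k _
      positivity
    · simp
  simpa using h

theorem qq_pos (j : ℕ) : 0 < qq j := lt_of_lt_of_le one_pos (qq_one_le j)

theorem NS_pp (j : ℕ) : ((j : ℝ) + 1) * pp j = qq j := by
  rw [nb_pp, qq]
  have h1 := rf_bell_pos j
  have h2 : (0 : ℝ) < (j : ℝ) + 1 := by positivity
  field_simp

theorem dq_nonneg (j : ℕ) : 0 ≤ dq j := by
  have h := qq_mono j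
  have h1 := NS_pp j
  have h2 := NS_pp (j + 1)
  push_cast at h2
  rw [show (j : ℝ) + 1 + 1 = (j : ℝ) + 2 by ring] at h2
  unfold dq
  linarith

theorem dq_anti (j : ℕ) : dq (j + 1) ≤ dq j := by
  have h := (phi_cv f1 (j + 2) (fi_f1_cv (j + 2))).2 j le_rfl
  rw [Phi_f1, Phi_f1, Phi_f1] at h
  unfold dq
  rw [show j + 1 + 1 = j + 2 from rfl]
  linarith

theorem dq_le (j : ℕ) : ((j : ℝ) + 1) * dq j ≤ qq j := by
  have h : pp (j + 1) ≤ pp j := pp_anti (Nat.le_succ j)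
  have h1 := NS_pp j
  have h2 := NS_pp (j + 1)
  push_cast at h2
  have h3 : ((j : ℝ) + 1) * qq (j + 1) ≤ ((j : ℝ) + 2) * qq j := by
    rw [← h1, ← h2]
    have h4 : ((j : ℝ) + 1) * ((j : ℝ) + 2) * pp (j + 1) ≤ ((j : ℝ) + 1) * ((j : ℝ) + 2) * pp j :=
      mul_le_mul_of_nonneg_left h (by positivity)
    linarith
  unfold dq
  linarith

theorem ro_nonneg (j : ℕ) : 0 ≤ ro j := by
  unfold ro
  exact div_nonneg (by positivity) (qq_pos j).le

theorem ro_mono (j : ℕ) : ro j ≤ ro (j + 1) := by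
  unfold ro
  rw [div_le_div_iff₀ (qq_pos j) (qq_pos (j + 1))]
  have h := dq_le j
  have h0 := dq_nonneg j
  unfold dq at h h0
  push_cast
  nlinarith

theorem NS_far (j k : ℕ) (hk : k ≤ j) : ((k : ℝ) + 1) * dq j ≤ qq (j + 1) - qq (j - k) := by
  induction k with
  | zero => simp [dq]
  | succ k ih =>
    have h1 := ih (by omega)
    have h2 : ∀ m, m ≤ j → dq j ≤ dq m := by
      intro m hm
      have ha : Antitone dq := antitone_nat_of_succ_le dq_anti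
      exact ha hm
    have h3 := h2 (j - (k + 1)) (by omega)
    have h4 : dq (j - (k + 1)) = qq (j - k) - qq (j - (k + 1)) := by
      unfold dq
      rw [show j - (k + 1) + 1 = j - k by omega]
    push_cast
    linarith

theorem NS_sumk (j : ℕ) : ∑ k ∈ range (j + 1), ((j.choose k : ℝ) * (Nat.bell (j - k) : ℝ)) * ((k : ℝ) + 1) =
    (Nat.bell (j + 1) : ℝ) + (j : ℝ) * (Nat.bell j : ℝ) := by
  have h1 : ∑ k ∈ range (j + 1), ((j.choose k : ℝ) * (Nat.bell (j - k) : ℝ)) * ((k : ℝ) + 1) =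
      ∑ k ∈ range (j + 1), (j.choose k : ℝ) * (Nat.bell (j - k) : ℝ) +
      ∑ k ∈ range (j + 1), ((j.choose k : ℝ) * (k : ℝ)) * (Nat.bell (j - k) : ℝ) := by
    rw [← Finset.sum_add_distrib]
    apply Finset.sum_congr rfl
    intro k _
    ring
  rw [h1, ← rf_bell_succ j]
  congr 1
  cases j with
  | zero => simp
  | succ m =>
    rw [Finset.sum_range_succ', rf_bell_succ m, Finset.mul_sum]
    simp only [Nat.cast_zero, mul_zero, zero_mul, add_zero]
    apply Finset.sum_congr rfl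
    intro k _
    have h2 : (((m + 1).choose (k + 1) : ℕ) : ℝ) * ((k + 1 : ℕ) : ℝ) = ((m + 1 : ℕ) : ℝ) * ((m.choose k : ℕ) : ℝ) := by
      have h3 : (m + 1) * m.choose k = (m + 1).choose (k + 1) * (k + 1) := Nat.add_one_mul_choose_eq m k
      exact_mod_cast h3.symm
    rw [h2, show m + 1 - (k + 1) = m - k by omega]
    ring

theorem NS_sumq (j : ℕ) : ∑ k ∈ range (j + 1), ((j.choose k : ℝ) * (Nat.bell (j - k) : ℝ)) *
    (qq (j + 1) - qq (j - k)) = (Nat.bell (j + 1) : ℝ) := by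
  have h := Phi_rec f1 (by simp [f1]) j
  rw [Phi_f1] at h
  have h1 : ∑ k ∈ range (j + 1), (j.choose k : ℝ) * (Nat.bell (j - k) : ℝ) * (f1 (k + 1) + Phi f1 (j - k)) =
      ∑ k ∈ range (j + 1), (j.choose k : ℝ) * (Nat.bell (j - k) : ℝ) * qq (j - k) := by
    apply Finset.sum_congr rfl
    intro k _
    rw [Phi_f1]
    simp [f1]
  rw [h1] at h
  have h2 : ∑ k ∈ range (j + 1), ((j.choose k : ℝ) * (Nat.bell (j - k) : ℝ)) * (qq (j + 1) - qq (j - k)) =
      (∑ k ∈ range (j + 1), (j.choose k : ℝ) * (Nat.bell (j - k) : ℝ)) * qq (j + 1) -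
      ∑ k ∈ range (j + 1), (j.choose k : ℝ) * (Nat.bell (j - k) : ℝ) * qq (j - k) := by
    rw [Finset.sum_mul, ← Finset.sum_sub_distrib]
    apply Finset.sum_congr rfl
    intro k _
    ring
  rw [h2, ← h, ← rf_bell_succ j]
  ring

theorem dq_le_ww (j : ℕ) : dq j ≤ ww j := by
  have hB := rf_bell_pos j
  have hB1 := rf_bell_pos (j + 1)
  have h1 : dq j * ((Nat.bell (j + 1) : ℝ) + (j : ℝ) * (Nat.bell j : ℝ)) ≤ (Nat.bell (j + 1) : ℝ) := by
    rw [← NS_sumk j, Finset.mul_sum]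
    refine le_trans (Finset.sum_le_sum ?_) (NS_sumq j).le
    intro k hk
    have hk' : k ≤ j := by
      have := Finset.mem_range.1 hk
      omega
    have h2 := NS_far j k hk'
    have h3 : (0 : ℝ) ≤ (j.choose k : ℝ) * (Nat.bell (j - k) : ℝ) := by positivity
    nlinarith [mul_le_mul_of_nonneg_left h2 h3]
  have h4 : ro j = (j : ℝ) * (Nat.bell j : ℝ) / (Nat.bell (j + 1) : ℝ) := by
    unfold ro qq
    field_simp
  have h5 := ro_nonneg j
  unfold ww
  rw [le_div_iff₀ (by linarith), h4]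
  have h6 : dq j * (1 + (j : ℝ) * (Nat.bell j : ℝ) / (Nat.bell (j + 1) : ℝ)) =
      dq j * ((Nat.bell (j + 1) : ℝ) + (j : ℝ) * (Nat.bell j : ℝ)) / (Nat.bell (j + 1) : ℝ) := by
    field_simp
  rw [h6, div_le_one hB1]
  exact h1

theorem ww_pos (j : ℕ) : 0 < ww j := by
  unfold ww
  have := ro_nonneg j
  positivity

theorem ww_anti (j : ℕ) : ww (j + 1) ≤ ww j := by
  unfold ww
  have h0 := ro_nonneg j
  have h1 := ro_mono j
  exact one_div_le_one_div_of_le (by linarith) (by linarith)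

end Pool.H68.AQ
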