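import Pool.Agent.H68.AQ.NS
import Pool.Agent.H68.AQ.FC

/-!
# Module NW : the three properties of `vv j d = min (ww j) (cc d)`, for `1 ≤ d ≤ j`

* `vv_anti` : `ww_anti`.
* `vv_lt_av` : `j ≤ 28`: `fc_c3`.  `j ≥ 29`: `ρ = ro j ≥ ro 29 ≥ 2.4148` (`ro_mono`, `fc_29`); `d / qq j ≤ ρ`, so
  `av j d ≥ 1 / (2 + ρ (1 + ρ) / (1 + 2 ρ)) > 1 / (1 + ρ) = ww j ≥ vv j d` because `ρ^2 - 2 ρ - 1 > 0`.
* `vv_c1` : the bracket `1 + (j+1-d)/qq j - (j-d)/qq (j-1) ≥ 1` (for `j > d`: `(j-d) (qq j - qq (j-1)) ≤ j dq (j-1) ≤ qq (j-1)` by `dq_le`;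
  for `j = d` clear).
  Case `ww j ≤ cc d`: `vv j d = ww j`, `vv (j-1) d ≤ ww (j-1)`, `ww j ≥ dq j` and
  `(j+1-d) ww j / qq j ≥ (j-d) ww (j-1) / qq (j-1)`: `ww j / qq j = 1 / (qq j + j)` and
  `(j+1-d)(qq (j-1) + j-1) - (j-d)(qq j + j) = qq (j-1) + (j-1) - (j-d)(1 + dq (j-1)) ≥ 0` for `j > d ≥ 1`
  (`j - d ≤ j - 1`, `(j-d) dq (j-1) ≤ j dq (j-1) ≤ qq (j-1)`).
  Case `cc d < ww j`: `vv j d = cc d`, `vv (j-1) d ≤ cc d`, so it is enough that `cc d * bracket ≥ dq j`: for `j ≤ 28` this is `fc_c1`;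
  for `j = 29`: bracket `≥ 1`, `cc d ≥ 29/100 ≥ dq 29`; `j ≥ 30` is impossible: `ww j ≤ ww 30 ≤ 29/100 ≤ cc d`.
-/

namespace Pool.H68.AQ

open Finset Pool.H68.AC

theorem nw_cc_ge (d : ℕ) : 29 / 100 ≤ cc d := by
  unfold cc
  split_ifs <;> norm_num

theorem nw_cc_pos (d : ℕ) : 0 < cc d :=
  lt_of_lt_of_le (by norm_num) (nw_cc_ge d)

theorem vv_pos (j d : ℕ) : 0 < vv j d :=
  lt_min (ww_pos j) (nw_cc_pos d)

theorem vv_anti (j d : ℕ) : vv (j + 1) d ≤ vv j d :=
  min_le_min_right _ (ww_anti j)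

theorem vv_lt_av (j d : ℕ) (hd : 1 ≤ d) (hdj : d ≤ j) : vv j d < av j d := by
  by_cases hj : j ≤ 28
  · exact fc_c3 j d hd hdj hj
  · have hmono : Monotone ro := monotone_nat_of_le_succ ro_mono
    have h29 : (24148 / 10000 : ℝ) ≤ ro j := le_trans fc_29.1 (hmono (by omega : 29 ≤ j))
    have hq := qq_pos j
    have hdq : (d : ℝ) / qq j ≤ ro j := by
      unfold ro
      have : (d : ℝ) ≤ (j : ℝ) := by exact_mod_cast hdj
      gcongr
    set r := ro j with hr
    have hr0 : 0 < r := by linarith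
    have hep : ep j = (1 + r) / (1 + 2 * r) := by rw [ep, ← hr]
    have hep0 : 0 < ep j := by rw [hep]; positivity
    have h1 : (d : ℝ) * ep j / qq j ≤ r * ep j := by
      have : (d : ℝ) * ep j / qq j = ((d : ℝ) / qq j) * ep j := by ring
      rw [this]
      exact mul_le_mul_of_nonneg_right hdq hep0.le
    have h2 : r * ep j < r - 1 := by
      rw [hep, ← mul_div_assoc, div_lt_iff₀ (by linarith)]
      nlinarith
    have h3 : 0 ≤ (d : ℝ) * ep j / qq j := by positivity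
    calc vv j d ≤ ww j := min_le_left _ _
      _ = 1 / (1 + r) := by rw [ww, ← hr]
      _ < av j d := by
        unfold av
        apply one_div_lt_one_div_of_lt
        · linarith
        · linarith

theorem vv_c1 (j d : ℕ) (hd : 1 ≤ d) (hdj : d ≤ j) :
    dq j ≤ ((j : ℝ) + 1 - d) * vv j d / qq j - ((j : ℝ) - d) * vv (j - 1) d / qq (j - 1) + vv j d := by
  obtain ⟨m, rfl⟩ : ∃ m, j = m + 1 := ⟨j - 1, by omega⟩
  have hm : m + 1 - 1 = m := by omega
  rw [hm]
  have hp := qq_pos m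
  have hp1 := qq_one_le m
  have hq := qq_pos (m + 1)
  have hδ : qq (m + 1) = qq m + dq m := by unfold dq; ring
  have hδ0 := dq_nonneg m
  have hδ1 := dq_le m
  have hd' : (1 : ℝ) ≤ d := by exact_mod_cast hd
  have hdj' : (d : ℝ) ≤ (m : ℝ) + 1 := by exact_mod_cast hdj
  have hm0 : (0 : ℝ) ≤ m := Nat.cast_nonneg m
  have hcast : ((m + 1 : ℕ) : ℝ) = (m : ℝ) + 1 := by push_cast; ring
  rw [hcast]
  have hjd0 : 0 ≤ (m : ℝ) + 1 - d := by linarith
  have hjdδ : ((m : ℝ) + 1 - d) * dq m ≤ qq m := by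
    have : ((m : ℝ) + 1 - d) * dq m ≤ ((m : ℝ) + 1) * dq m :=
      mul_le_mul_of_nonneg_right (by linarith) hδ0
    linarith
  by_cases hw : ww (m + 1) ≤ cc d
  · have hv : vv (m + 1) d = ww (m + 1) := min_eq_left hw
    rw [hv]
    have hvm : vv m d ≤ ww m := min_le_left _ _
    have e1 : ww (m + 1) / qq (m + 1) = 1 / (qq (m + 1) + ((m : ℝ) + 1)) := by
      unfold ww ro
      rw [hcast]
      field_simp
    have e2 : ww m / qq m = 1 / (qq m + (m : ℝ)) := by
      unfold ww ro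
      field_simp
    have h1 : ((m : ℝ) + 1 - d) * vv m d / qq m ≤ ((m : ℝ) + 1 - d) * (1 / (qq m + (m : ℝ))) := by
      rw [← e2, mul_div_assoc]
      apply mul_le_mul_of_nonneg_left _ hjd0
      gcongr
    have h2 : ((m : ℝ) + 1 + 1 - d) * ww (m + 1) / qq (m + 1) =
        ((m : ℝ) + 1 + 1 - d) * (1 / (qq (m + 1) + ((m : ℝ) + 1))) := by
      rw [← e1, mul_div_assoc]
    have h3 : ((m : ℝ) + 1 - d) * (1 / (qq m + (m : ℝ))) ≤
        ((m : ℝ) + 1 + 1 - d) * (1 / (qq (m + 1) + ((m : ℝ) + 1))) := by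
      rw [mul_one_div, mul_one_div, div_le_div_iff₀ (by linarith) (by linarith), hδ]
      nlinarith
    have h4 := dq_le_ww (m + 1)
    rw [h2]
    linarith
  · push Not at hw
    have hv : vv (m + 1) d = cc d := min_eq_right hw.le
    rw [hv]
    have hvm : vv m d ≤ cc d := min_le_right _ _
    have hc := nw_cc_pos d
    have hcg := nw_cc_ge d
    have h1 : ((m : ℝ) + 1 - d) * vv m d / qq m ≤ ((m : ℝ) + 1 - d) * cc d / qq m := by
      gcongr
    have key : dq (m + 1) ≤ cc d * (1 + ((m : ℝ) + 1 + 1 - d) / qq (m + 1) - ((m : ℝ) + 1 - d) / qq m) := by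
      by_cases h28 : m + 1 ≤ 28
      · have := fc_c1 (m + 1) d hd hdj h28 hw
        rw [hm, hcast] at this
        exact this
      · by_cases h30 : 30 ≤ m + 1
        · exfalso
          have hanti : Antitone ww := antitone_nat_of_succ_le ww_anti
          have h5 := hanti h30
          have h6 := fc_29.2.2
          linarith
        · have h29 : m + 1 = 29 := by omega
          have hb : ((m : ℝ) + 1 - d) / qq m ≤ ((m : ℝ) + 1 + 1 - d) / qq (m + 1) := by
            rw [div_le_div_iff₀ hp hq, hδ]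
            nlinarith
          have h7 : dq (m + 1) ≤ 29 / 100 := by rw [h29]; exact fc_29.2.1
          have h8 : cc d * 1 ≤ cc d * (1 + ((m : ℝ) + 1 + 1 - d) / qq (m + 1) - ((m : ℝ) + 1 - d) / qq m) := by
            apply mul_le_mul_of_nonneg_left _ hc.le
            linarith
          linarith
    have e : cc d * (1 + ((m : ℝ) + 1 + 1 - d) / qq (m + 1) - ((m : ℝ) + 1 - d) / qq m) =
        ((m : ℝ) + 1 + 1 - d) * cc d / qq (m + 1) - ((m : ℝ) + 1 - d) * cc d / qq m + cc d := by ring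
    rw [e] at key
    linarith

end Pool.H68.AQ
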